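import Mathlib

/-!
# Bernstein sets

The first two lemmas are taken over from `Pool.Agent.Results.MP_0e7155_gt.CompactClosedSubsets`.
-/

set_option autoImplicit false

open Set Topology Cardinal

universe u

namespace Pool.Agent.H94R3.Bernstein

/-- Injective choice from a family of at most `κ` sets each of size at least `κ`. -/
lemma exists_injective_choice {ι K : Type u} (κ : Cardinal.{u}) (hJ : #ι ≤ κ)
    (A : ι → Set K) (hA : ∀ i, κ ≤ #(A i)) :
    ∃ g : ι → K, Function.Injective g ∧ ∀ i, g i ∈ A i := by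
  classical
  obtain ⟨lo, wf, hr⟩ := Cardinal.exists_ord_eq_type_lt ι
  have key : ∀ (j : ι) (f : ∀ k, k < j → K), ∃ x ∈ A j, ∀ k (h : k < j), f k h ≠ x := by
    intro j f
    by_contra hcon
    push Not at hcon
    have h1 : #(A j) ≤ #(Iio j) := by
      have hsub : A j ⊆ range (fun k : Iio j => f k.1 k.2) := by
        intro x hx
        obtain ⟨k, h, hk⟩ := hcon x hx
        exact ⟨⟨k, h⟩, hk⟩
      exact (Cardinal.mk_le_mk_of_subset hsub).trans Cardinal.mk_range_le
    exact absurd (((hA j).trans h1).trans_lt (Cardinal.mk_Iio_lt j hr)) (not_lt.mpr hJ)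
  choose F hF1 hF2 using key
  have wf' : WellFounded ((· < ·) : ι → ι → Prop) := wf.wf
  let g : ι → K := wf'.fix F
  have hg : ∀ j, g j = F j (fun k _ => g k) := fun j => wf'.fix_eq F j
  refine ⟨g, ?_, ?_⟩
  · intro a b hab
    rcases lt_trichotomy a b with h | h | h
    · exact absurd hab (by rw [hg b]; exact hF2 b (fun k _ => g k) a h)
    · exact h
    · exact absurd hab.symm (by rw [hg a]; exact hF2 a (fun k _ => g k) b h)
  · intro i; rw [hg i]; exact hF1 i _

/-- Bernstein decomposition of a compact metric space. -/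
lemma exists_bernstein (K : Type u) [MetricSpace K] [CompactSpace K] :
    ∃ D : Set K, ∀ P : Set K, Perfect P → P.Nonempty →
      (P ∩ D).Nonempty ∧ (P ∩ Dᶜ).Nonempty := by
  classical
  let ι := {P : Set K // Perfect P ∧ P.Nonempty}
  have hι : #ι ≤ 𝔠 := by
    let B := TopologicalSpace.countableBasis K
    have hBc : B.Countable := TopologicalSpace.countable_countableBasis K
    have hB := TopologicalSpace.isBasis_countableBasis K
    let φ : ι → Set B := fun P => {b | (b : Set K) ∩ P.1 = ∅}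
    have hsub : ∀ P Q : ι, φ P = φ Q → P.1 ⊆ Q.1 := by
      intro P Q h x hx
      by_contra hxQ
      obtain ⟨b, hb, hxb, hbQ⟩ := hB.exists_subset_of_mem_open (a := x) (u := Q.1ᶜ) hxQ
        Q.2.1.closed.isOpen_compl
      have h1 : (⟨b, hb⟩ : B) ∈ φ Q := by
        change b ∩ Q.1 = ∅
        rw [← Set.disjoint_iff_inter_eq_empty, Set.disjoint_left]
        exact fun y hy hyQ => hbQ hy hyQ
      rw [← h] at h1
      have h2 : b ∩ P.1 = ∅ := h1
      have : x ∈ b ∩ P.1 := ⟨hxb, hx⟩
      rw [h2] at this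
      exact this
    have hφ : Function.Injective φ := by
      intro P Q h
      exact Subtype.ext (Subset.antisymm (hsub P Q h) (hsub Q P h.symm))
    have h3 : #(Set B) ≤ 𝔠 := by
      rw [Cardinal.mk_set]
      have hB' : #B ≤ ℵ₀ := Cardinal.mk_le_aleph0_iff.mpr hBc.to_subtype
      calc (2 : Cardinal.{u}) ^ #B ≤ 2 ^ ℵ₀ := Cardinal.power_le_power_left two_ne_zero hB'
        _ = 𝔠 := two_power_aleph0
    exact (Cardinal.mk_le_of_injective hφ).trans h3
  have hJ : #(ι ⊕ ι) ≤ 𝔠 := by
    rw [Cardinal.mk_sum, Cardinal.lift_id, ]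
    calc #ι + #ι ≤ 𝔠 + 𝔠 := add_le_add hι hι
      _ = 𝔠 := Cardinal.continuum_add_self
  have hA : ∀ i : ι ⊕ ι, 𝔠 ≤ #((Sum.elim (fun P : ι => P.1) (fun P : ι => P.1) i : Set K)) := by
    have hP : ∀ P : ι, 𝔠 ≤ #(P.1 : Set K) := by
      intro P
      obtain ⟨f, hf1, -, hf3⟩ := P.2.1.exists_nat_bool_injection P.2.2
      have : #(ULift.{u} (ℕ → Bool)) ≤ #(P.1 : Set K) := by
        refine Cardinal.mk_le_of_injective (f := fun x => (⟨f x.down, hf1 ⟨x.down, rfl⟩⟩ : P.1)) ?_
        intro x y h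
        have h' : f x.down = f y.down := congrArg Subtype.val h
        exact ULift.ext _ _ (hf3 h')
      refine le_trans (le_of_eq ?_) this
      simp
    rintro (P | P)
    · exact hP P
    · exact hP P
  obtain ⟨g, hg1, hg2⟩ := exists_injective_choice 𝔠 hJ _ hA
  refine ⟨range (g ∘ Sum.inl), ?_⟩
  intro P hP hne
  refine ⟨⟨g (Sum.inl ⟨P, hP, hne⟩), hg2 (Sum.inl ⟨P, hP, hne⟩), ⟨⟨P, hP, hne⟩, rfl⟩⟩,
    ⟨g (Sum.inr ⟨P, hP, hne⟩), hg2 (Sum.inr ⟨P, hP, hne⟩), ?_⟩⟩
  rintro ⟨Q, hQ⟩
  have := hg1 hQ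
  simp at this

/-- There are a compact metric space `K`, a subset `D` of `K` all of whose closed (in `K`) subsets are
countable, and an injection of the Cantor set into `D`. -/
theorem exists_set : ∃ (K : Type) (_ : MetricSpace K), CompactSpace K ∧ ∃ D : Set K,
    (∀ F : Set K, IsClosed F → F ⊆ D → F.Countable) ∧
    ∃ j : (ℕ → Bool) → K, Function.Injective j ∧ ∀ x, j x ∈ D := by
  classical
  refine ⟨unitInterval × unitInterval, inferInstance, inferInstance, ?_⟩
  obtain ⟨D, hD⟩ := exists_bernstein (unitInterval × unitInterval)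
  refine ⟨D, ?_, ?_⟩
  · intro F hF hFD
    by_contra hunc
    obtain ⟨P, hP, hne, hPF⟩ := exists_perfect_nonempty_of_isClosed_of_not_countable hF hunc
    obtain ⟨x, hx, hxD⟩ := (hD P hP hne).2
    exact hxD (hFD (hPF hx))
  · have hP : ∀ x : unitInterval, Perfect ({x} ×ˢ Set.univ : Set (unitInterval × unitInterval)) := by
      intro x
      refine ⟨isClosed_singleton.prod isClosed_univ, ?_⟩
      rw [preperfect_iff_nhds]
      rintro ⟨x', y⟩ ⟨hx', -⟩ U hU
      rw [mem_singleton_iff] at hx'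
      simp only at hx'
      subst hx'
      have hc : Continuous fun y' : unitInterval => (x', y') :=
        continuous_const.prodMk continuous_id
      have h1 : (fun y' : unitInterval => (x', y')) ⁻¹' U ∈ 𝓝 y := hc.continuousAt hU
      have h2 : (𝓝[≠] y).NeBot := inferInstance
      obtain ⟨y', hy', hne⟩ := h2.nonempty_of_mem
        (Filter.inter_mem (mem_nhdsWithin_of_mem_nhds h1) self_mem_nhdsWithin)
      refine ⟨(x', y'), ⟨hy', rfl, mem_univ _⟩, ?_⟩
      intro h
      exact hne (congrArg Prod.snd h)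
    have hx : ∀ x : unitInterval, ∃ y : unitInterval, (x, y) ∈ D := by
      intro x
      obtain ⟨⟨x', y⟩, ⟨hx', -⟩, hy⟩ := (hD _ (hP x) ⟨(x, x), rfl, mem_univ _⟩).1
      rw [mem_singleton_iff] at hx'
      simp only at hx'
      subst hx'
      exact ⟨y, hy⟩
    choose y hy using hx
    have hcard : #(ℕ → Bool) ≤ Cardinal.mk unitInterval := by
      have h1 : Cardinal.mk unitInterval = 𝔠 := Cardinal.mk_Icc_real (by norm_num)
      rw [h1]
      simp
    obtain ⟨j⟩ := hcard
    refine ⟨fun f => (j f, y (j f)), ?_, fun f => hy (j f)⟩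
    intro f g h
    exact j.injective (congrArg Prod.fst h)

end Pool.Agent.H94R3.Bernstein
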