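import Pool.Agent.H94R3.Bernstein

/-!
# A space with a dense Lindelöf subspace and a regular `G_δ`-diagonal
-/

set_option autoImplicit false

open Set Topology

namespace Pool.Agent.H94R3.CellLin

/-- An independent family of subsets of `ℕ` indexed by the Cantor set. -/
theorem exists_indep : ∃ A : (ℕ → Bool) → Set ℕ, ∀ (J : Finset (ℕ → Bool)) (p : Set (ℕ → Bool))
    (N : ℕ), ∃ s, N ≤ s ∧ ∀ w ∈ J, (s ∈ A w ↔ w ∈ p) := by
  classical
  let code : (ℕ → Bool) → ℕ → Finset ℕ := fun f n => (Finset.range n).filter fun i => f i = true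
  let en : ℕ × Finset (Finset ℕ) ≃ ℕ := Denumerable.eqv _
  refine ⟨fun f => {s | code f (en.symm s).1 ∈ (en.symm s).2}, ?_⟩
  intro J p N
  have hd : ∀ f g : ℕ → Bool, ∃ i, f ≠ g → f i ≠ g i := by
    intro f g
    by_cases h : f = g
    · exact ⟨0, fun h' => absurd h h'⟩
    · obtain ⟨i, hi⟩ := Function.ne_iff.1 h
      exact ⟨i, fun _ => hi⟩
  choose d hd using hd
  let n0 : ℕ := (J ×ˢ J).sup fun z => d z.1 z.2 + 1
  have hinj : ∀ n, n0 ≤ n → ∀ f ∈ J, ∀ g ∈ J, code f n = code g n → f = g := by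
    intro n hn f hf g hg h
    by_contra hne
    have h1 : d f g + 1 ≤ n0 :=
      Finset.le_sup (f := fun z : (ℕ → Bool) × (ℕ → Bool) => d z.1 z.2 + 1)
        (Finset.mk_mem_product hf hg)
    have h2 : d f g ∈ code f n ↔ d f g ∈ code g n := by rw [h]
    simp only [code, Finset.mem_filter, Finset.mem_range] at h2
    apply hd f g hne
    rw [Bool.eq_iff_iff]
    constructor
    · intro h3
      exact (h2.1 ⟨by omega, h3⟩).2
    · intro h3
      exact (h2.2 ⟨by omega, h3⟩).2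
  let B : ℕ → Finset (Finset ℕ) := fun n => (J.filter fun f => f ∈ p).image fun f => code f n
  let σ : ℕ → ℕ := fun n => en (n0 + n, B (n0 + n))
  have hσ : Function.Injective σ := by
    intro m n h
    have := congrArg Prod.fst (en.injective h)
    simp only at this
    omega
  obtain ⟨s, ⟨n, rfl⟩, hs⟩ := (Set.infinite_range_of_injective hσ).exists_gt N
  refine ⟨σ n, hs.le, ?_⟩
  intro w hw
  simp only [mem_ofPred_eq, σ, Equiv.symm_apply_apply, B, Finset.mem_image, Finset.mem_filter]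
  constructor
  · rintro ⟨f, ⟨hf, hfp⟩, hfw⟩
    rw [← hinj (n0 + n) (by omega) f hf w hw hfw]
    exact hfp
  · intro h
    exact ⟨w, ⟨hw, h⟩, rfl⟩

/-- The points of the space: countably many copies of `K`, and the subsets of `W`. -/
inductive Pt (K W : Type) : Type
  | base : ℕ → K → Pt K W
  | tip : Set W → Pt K W

open Pt

variable {K W : Type} [MetricSpace K] [LinearOrder W] [Nonempty W]

/-- The topology: the points `base s x` with `x ∈ D` are isolated, the points `base s x` with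
`x ∉ D` have the neighbourhoods of the metric space `K`, and the neighbourhoods of `tip p` contain
the points `base s (c α (p ∩ Iic α))` for all large `α` and all large `s` in a member of the filter
generated by the independent family `A` and `p`. -/
@[instance_reducible]
def topo (D : Set K) (A : W → Set ℕ) (c : W → Set W → K) : TopologicalSpace (Pt K W) where
  IsOpen U := (∀ s x, base s x ∈ U → x ∉ D → ∃ ε > 0, ∀ y, dist y x < ε → base s y ∈ U) ∧
    ∀ p, tip p ∈ U → ∃ (J : Finset W) (N : ℕ) (δ : W), ∀ s, N ≤ s → (∀ w ∈ J, (s ∈ A w ↔ w ∈ p)) →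
      ∀ α, δ ≤ α → base s (c α (p ∩ Iic α)) ∈ U
  isOpen_univ := by
    refine ⟨fun s x _ _ => ⟨1, one_pos, fun y _ => mem_univ _⟩, fun p _ => ?_⟩
    exact ⟨∅, 0, Classical.arbitrary W, fun s _ _ α _ => mem_univ _⟩
  isOpen_inter := by
    classical
    rintro U V ⟨hU1, hU2⟩ ⟨hV1, hV2⟩
    refine ⟨?_, ?_⟩
    · rintro s x ⟨hU, hV⟩ hx
      obtain ⟨ε, hε, h1⟩ := hU1 s x hU hx
      obtain ⟨ε', hε', h2⟩ := hV1 s x hV hx
      exact ⟨min ε ε', lt_min hε hε', fun y hy =>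
        ⟨h1 y (hy.trans_le (min_le_left _ _)), h2 y (hy.trans_le (min_le_right _ _))⟩⟩
    · rintro p ⟨hU, hV⟩
      obtain ⟨J, N, δ, h1⟩ := hU2 p hU
      obtain ⟨J', N', δ', h2⟩ := hV2 p hV
      refine ⟨J ∪ J', max N N', max δ δ', ?_⟩
      intro s hs hJ α hα
      exact ⟨h1 s ((le_max_left _ _).trans hs) (fun w hw => hJ w (Finset.mem_union_left _ hw)) α
          ((le_max_left _ _).trans hα),
        h2 s ((le_max_right _ _).trans hs) (fun w hw => hJ w (Finset.mem_union_right _ hw)) α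
          ((le_max_right _ _).trans hα)⟩
  isOpen_sUnion := by
    intro 𝒰 h
    refine ⟨?_, ?_⟩
    · rintro s x ⟨U, hU, hxU⟩ hx
      obtain ⟨ε, hε, h1⟩ := (h U hU).1 s x hxU hx
      exact ⟨ε, hε, fun y hy => ⟨U, hU, h1 y hy⟩⟩
    · rintro p ⟨U, hU, hpU⟩
      obtain ⟨J, N, δ, h1⟩ := (h U hU).2 p hpU
      exact ⟨J, N, δ, fun s hs hJ α hα => ⟨U, hU, h1 s hs hJ α hα⟩⟩

section

variable (D : Set K) (A : W → Set ℕ) (c : W → Set W → K)

theorem isOpen_iff' (U : Set (Pt K W)) : @IsOpen _ (topo D A c) U ↔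
    (∀ s x, base s x ∈ U → x ∉ D → ∃ ε > 0, ∀ y, dist y x < ε → base s y ∈ U) ∧
    ∀ p, tip p ∈ U → ∃ (J : Finset W) (N : ℕ) (δ : W), ∀ s, N ≤ s → (∀ w ∈ J, (s ∈ A w ↔ w ∈ p)) →
      ∀ α, δ ≤ α → base s (c α (p ∩ Iic α)) ∈ U := Iff.rfl

/-- The copies of `K` together form a Lindelöf subspace. -/
theorem isLindelof_base [CompactSpace K] (hD : ∀ F : Set K, IsClosed F → F ⊆ D → F.Countable) :
    @IsLindelof _ (topo D A c) {z : Pt K W | ∃ s x, z = base s x} := by
  classical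
  let _ := topo D A c
  apply isLindelof_of_countable_subcover
  intro ι U hU hcov
  have h1 : ∀ s x, ∃ i, base s x ∈ U i := fun s x => mem_iUnion.1 (hcov ⟨s, x, rfl⟩)
  choose i hi using h1
  have h2 : ∀ s (x : {x : K // x ∉ D}), ∃ ε > 0, ∀ y, dist y x.1 < ε → base s y ∈ U (i s x.1) :=
    fun s x => ((isOpen_iff' D A c _).1 (hU (i s x.1))).1 s x.1 (hi s x.1) x.2
  choose ε hε hball using h2
  have h3 : ∀ s, ∃ T : Set {x : K // x ∉ D}, T.Countable ∧
      ⋃ x ∈ T, Metric.ball x.1 (ε s x) = ⋃ x, Metric.ball x.1 (ε s x) := fun s =>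
    TopologicalSpace.isOpen_iUnion_countable _ fun x => Metric.isOpen_ball
  choose T hT hTU using h3
  have h4 : ∀ s, ((⋃ x, Metric.ball (x : {x : K // x ∉ D}).1 (ε s x))ᶜ : Set K).Countable := by
    intro s
    apply hD
    · exact (isOpen_iUnion fun x => Metric.isOpen_ball).isClosed_compl
    · intro y hy
      by_contra hyD
      exact hy (mem_iUnion.2 ⟨⟨y, hyD⟩, Metric.mem_ball_self (hε s _)⟩)
  refine ⟨⋃ s, ((fun x : {x : K // x ∉ D} => i s x.1) '' T s ∪
    (fun x => i s x) '' (⋃ x, Metric.ball (x : {x : K // x ∉ D}).1 (ε s x))ᶜ),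
    countable_iUnion fun s => ((hT s).image _).union ((h4 s).image _), ?_⟩
  rintro _ ⟨s, y, rfl⟩
  by_cases hy : y ∈ ⋃ x, Metric.ball (x : {x : K // x ∉ D}).1 (ε s x)
  · rw [← hTU s] at hy
    obtain ⟨x, hx, hxy⟩ := mem_iUnion₂.1 hy
    exact mem_iUnion₂.2 ⟨i s x.1, mem_iUnion.2 ⟨s, Or.inl ⟨x, hx, rfl⟩⟩, hball s x y hxy⟩
  · exact mem_iUnion₂.2 ⟨i s y, mem_iUnion.2 ⟨s, Or.inr ⟨y, hy, rfl⟩⟩, hi s y⟩

/-- Every nonempty open set meets the copies of `K`. -/
theorem inter_base (hA : ∀ (J : Finset W) (p : Set W) (N : ℕ), ∃ s, N ≤ s ∧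
    ∀ w ∈ J, (s ∈ A w ↔ w ∈ p)) (U : Set (Pt K W)) (hU : @IsOpen _ (topo D A c) U)
    (hne : U.Nonempty) : ({z : Pt K W | ∃ s x, z = base s x} ∩ U).Nonempty := by
  obtain ⟨z, hz⟩ := hne
  cases z with
  | base s x => exact ⟨base s x, ⟨s, x, rfl⟩, hz⟩
  | tip p =>
    obtain ⟨J, N, δ, h⟩ := ((isOpen_iff' D A c U).1 hU).2 p hz
    obtain ⟨s, hs, hJ⟩ := hA J p N
    exact ⟨_, ⟨s, _, rfl⟩, h s hs hJ δ le_rfl⟩

/-- The neighbourhood assignments. -/
def V (n : ℕ) : Pt K W → Set (Pt K W)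
  | base s x => {z | ∃ y, z = base s y ∧ (x ∈ D → y = x) ∧ dist y x < 1 / ((n : ℝ) + 1)}
  | tip p => {z | z = tip p ∨ ∃ s α, n ≤ s ∧ z = base s (c α (p ∩ Iic α))}

variable {D c}

omit [Nonempty W] in
theorem mem_V (n : ℕ) (z : Pt K W) : z ∈ V D c n z := by
  cases z with
  | base s x =>
    refine ⟨x, rfl, fun _ => rfl, ?_⟩
    rw [dist_self]
    positivity
  | tip p => exact Or.inl rfl

theorem isOpen_V (hc : ∀ α p, c α p ∈ D) (n : ℕ) (z : Pt K W) :
    @IsOpen _ (topo D A c) (V D c n z) := by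
  rw [isOpen_iff']
  cases z with
  | base s x =>
    refine ⟨?_, ?_⟩
    · rintro t y ⟨y', hy', h1, h2⟩ hyD
      injection hy' with ht hy'
      subst ht hy'
      by_cases hx : x ∈ D
      · rw [h1 hx] at hyD
        exact absurd hx hyD
      · refine ⟨1 / ((n : ℝ) + 1) - dist y x, by linarith, ?_⟩
        intro z hz
        refine ⟨z, rfl, fun h => absurd h hx, ?_⟩
        have := dist_triangle z y x
        linarith
    · rintro p ⟨y, hy, -⟩
      exact absurd hy (by simp)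
  | tip p =>
    refine ⟨?_, ?_⟩
    · rintro t y (hy | ⟨s, α, hs, hy⟩) hyD
      · exact absurd hy (by simp)
      · injection hy with _ hy
        rw [hy] at hyD
        exact absurd (hc _ _) hyD
    · rintro q (hq | ⟨s, α, hs, hq⟩)
      · injection hq with hq
        subst hq
        exact ⟨∅, n, Classical.arbitrary W, fun s hs _ α _ => Or.inr ⟨s, α, hs, rfl⟩⟩
      · exact absurd hq (by simp)

/-- A set of points of the `s`-th copy of `K` whose set of second coordinates is open. -/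
theorem isOpen_copy (s : ℕ) (O : Set K) (hO : IsOpen O) :
    @IsOpen _ (topo D A c) {z : Pt K W | ∃ y ∈ O, z = base s y} := by
  rw [isOpen_iff']
  refine ⟨?_, ?_⟩
  · rintro t y ⟨y', hy', h⟩ -
    injection h with ht h
    subst ht h
    obtain ⟨ε, hε, hball⟩ := Metric.isOpen_iff.1 hO y hy'
    exact ⟨ε, hε, fun z hz => ⟨z, hball hz, rfl⟩⟩
  · rintro p ⟨y, -, h⟩
    exact absurd h (by simp)

/-- A neighbourhood of `tip p`. -/
theorem isOpen_tip (hc : ∀ α p, c α p ∈ D) (p : Set W) (ξ : W) :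
    @IsOpen _ (topo D A c) {z : Pt K W | z = tip p ∨ ∃ s α, (s ∈ A ξ ↔ ξ ∈ p) ∧ ξ ≤ α ∧
      z = base s (c α (p ∩ Iic α))} := by
  rw [isOpen_iff']
  refine ⟨?_, ?_⟩
  · rintro t y (hy | ⟨s, α, -, -, hy⟩) hyD
    · exact absurd hy (by simp)
    · injection hy with _ hy
      rw [hy] at hyD
      exact absurd (hc _ _) hyD
  · rintro q (hq | ⟨s, α, -, -, hq⟩)
    · injection hq with hq
      subst hq
      exact ⟨{ξ}, 0, ξ, fun s _ hJ α hα => Or.inr ⟨s, α, hJ ξ (by simp), hα, rfl⟩⟩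
    · exact absurd hq (by simp)

variable (D c) in
/-- Separation of two points: open neighbourhoods that are not both met by any set `V n w`. -/
def Sep (z z' : Pt K W) : Prop :=
  ∃ (n : ℕ) (G G' : Set (Pt K W)), @IsOpen _ (topo D A c) G ∧ @IsOpen _ (topo D A c) G' ∧
      z ∈ G ∧ z' ∈ G' ∧ ∀ w, ¬ ((V D c n w ∩ G).Nonempty ∧ (V D c n w ∩ G').Nonempty)

theorem Sep.symm {z z' : Pt K W} (h : Sep D A c z z') : Sep D A c z' z := by
  obtain ⟨n, G, G', h1, h2, h3, h4, h5⟩ := h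
  exact ⟨n, G', G, h2, h1, h4, h3, fun w hw => h5 w hw.symm⟩

theorem sep_tip_base (hc : ∀ α p, c α p ∈ D) (p : Set W) (s : ℕ) (x : K) :
    Sep D A c (tip p) (base s x) := by
  refine ⟨s + 1, V D c (s + 1) (tip p), {z | ∃ y ∈ univ, z = base s y}, isOpen_V A hc _ _,
    isOpen_copy A s univ isOpen_univ, mem_V _ _, ⟨x, mem_univ _, rfl⟩, ?_⟩
  rintro w ⟨⟨z, hzw, hz⟩, ⟨_, hzw', ⟨y', -, rfl⟩⟩⟩
  cases w with
  | base t v =>
    obtain ⟨y, rfl, -⟩ := hzw
    obtain ⟨y2, h, -⟩ := hzw'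
    injection h with h _
    rcases hz with hz | ⟨s', α, hs', hz⟩
    · exact absurd hz (by simp)
    · injection hz with hz _
      omega
  | tip r =>
    rcases hzw' with h | ⟨s', α, hs', h⟩
    · exact absurd h (by simp)
    · injection h with h _
      omega

theorem sep_base_base_ne (s t : ℕ) (hst : s ≠ t) (x y : K) :
    Sep D A c (base s x) (base t y) := by
  refine ⟨max s t + 1, {z | ∃ y ∈ univ, z = base s y}, {z | ∃ y ∈ univ, z = base t y},
    isOpen_copy A s univ isOpen_univ, isOpen_copy A t univ isOpen_univ, ⟨x, mem_univ _, rfl⟩,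
    ⟨y, mem_univ _, rfl⟩, ?_⟩
  rintro w ⟨⟨_, hzw, ⟨x', -, rfl⟩⟩, ⟨_, hzw', ⟨y', -, rfl⟩⟩⟩
  cases w with
  | base u v =>
    obtain ⟨y1, h1, -⟩ := hzw
    obtain ⟨y2, h2, -⟩ := hzw'
    injection h1 with h1 _
    injection h2 with h2 _
    exact hst (h1.trans h2.symm)
  | tip r =>
    rcases hzw with h | ⟨s', α, hs', h⟩
    · exact absurd h (by simp)
    · injection h with h _
      omega

theorem sep_base_base (s : ℕ) (x y : K) (hxy : x ≠ y) :
    Sep D A c (base s x) (base s y) := by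
  have hd : 0 < dist x y := dist_pos.2 hxy
  obtain ⟨m, hm⟩ := exists_nat_gt (4 / dist x y)
  let n := max m (s + 1)
  have hn : 4 * (1 / ((n : ℝ) + 1)) < dist x y := by
    have h1 : (m : ℝ) ≤ n := by exact_mod_cast le_max_left _ _
    have h2 : 4 / dist x y < (n : ℝ) + 1 := by linarith
    rw [div_lt_iff₀ hd] at h2
    rw [mul_one_div, div_lt_iff₀ (by positivity)]
    linarith
  have hpos : 0 < 1 / ((n : ℝ) + 1) := by positivity
  refine ⟨n, {z | ∃ a ∈ Metric.ball x (1 / ((n : ℝ) + 1)), z = base s a},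
    {z | ∃ a ∈ Metric.ball y (1 / ((n : ℝ) + 1)), z = base s a},
    isOpen_copy A s _ Metric.isOpen_ball, isOpen_copy A s _ Metric.isOpen_ball,
    ⟨x, Metric.mem_ball_self hpos, rfl⟩, ⟨y, Metric.mem_ball_self hpos, rfl⟩, ?_⟩
  rintro w ⟨⟨_, hzw, ⟨a, ha, rfl⟩⟩, ⟨_, hzw', ⟨b, hb, rfl⟩⟩⟩
  cases w with
  | base u v =>
    obtain ⟨y1, h1, -, h1'⟩ := hzw
    obtain ⟨y2, h2, -, h2'⟩ := hzw'
    injection h1 with _ h1
    injection h2 with _ h2
    subst h1 h2
    rw [Metric.mem_ball] at ha hb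
    have e1 := dist_triangle x a y
    have e2 := dist_triangle a v y
    have e3 := dist_triangle v b y
    rw [dist_comm x a] at e1
    rw [dist_comm v b] at e3
    linarith
  | tip r =>
    rcases hzw with h | ⟨s', α, hs', h⟩
    · exact absurd h (by simp)
    · injection h with h _
      have : s + 1 ≤ n := le_max_right _ _
      omega

theorem sep_tip_tip (hc : ∀ α p, c α p ∈ D)
    (hinj : ∀ α β p q, c α (p ∩ Iic α) = c β (q ∩ Iic β) → α = β ∧ p ∩ Iic α = q ∩ Iic β)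
    (p q : Set W) (hpq : p ≠ q) : Sep D A c (tip p) (tip q) := by
  obtain ⟨ξ, hξ⟩ : ∃ ξ, ¬ (ξ ∈ p ↔ ξ ∈ q) := by
    by_contra h
    push Not at h
    exact hpq (Set.ext h)
  refine ⟨0, _, _, isOpen_tip A hc p ξ, isOpen_tip A hc q ξ, Or.inl rfl, Or.inl rfl, ?_⟩
  -- a point of `V 0 (tip r)` in the neighbourhood of `tip p` forces `r` to agree with `p` at `ξ`
  have hag : ∀ r p : Set W, ∀ z ∈ V D c 0 (tip r), (z = tip p ∨ ∃ s α, (s ∈ A ξ ↔ ξ ∈ p) ∧
      ξ ≤ α ∧ z = base s (c α (p ∩ Iic α))) → (ξ ∈ r ↔ ξ ∈ p) := by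
    intro r p z hz hzp
    rcases hz with rfl | ⟨s, α, -, rfl⟩
    · rcases hzp with h | ⟨s, α, -, -, h⟩
      · injection h with h
        rw [h]
      · exact absurd h (by simp)
    · rcases hzp with h | ⟨s', β, -, hβ, h⟩
      · exact absurd h (by simp)
      · injection h with _ h
        obtain ⟨h1, h2⟩ := hinj _ _ _ _ h
        subst h1
        have : ξ ∈ r ∩ Iic α ↔ ξ ∈ p ∩ Iic α := by rw [h2]
        simpa [hβ] using this
  rintro w ⟨⟨z, hzw, hz⟩, ⟨z', hzw', hz'⟩⟩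
  cases w with
  | base u v =>
    obtain ⟨y1, rfl, -⟩ := hzw
    obtain ⟨y2, rfl, -⟩ := hzw'
    rcases hz with h | ⟨s, α, hs, -, h⟩
    · exact absurd h (by simp)
    rcases hz' with h' | ⟨s', β, hs', -, h'⟩
    · exact absurd h' (by simp)
    injection h with h _
    injection h' with h' _
    subst h
    subst h'
    exact hξ (hs.symm.trans hs')
  | tip r =>
    exact hξ ((hag r p z hzw hz).symm.trans (hag r q z' hzw' hz'))

theorem exists_sep (hc : ∀ α p, c α p ∈ D)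
    (hinj : ∀ α β p q, c α (p ∩ Iic α) = c β (q ∩ Iic β) → α = β ∧ p ∩ Iic α = q ∩ Iic β)
    {z z' : Pt K W} (hne : z ≠ z') : Sep D A c z z' := by
  cases z with
  | base s x =>
    cases z' with
    | base t y =>
      by_cases hst : s = t
      · subst hst
        exact sep_base_base A s x y (fun h => hne (by rw [h]))
      · exact sep_base_base_ne A s t hst x y
    | tip q => exact (sep_tip_base A hc q s x).symm
  | tip p =>
    cases z' with
    | base t y => exact sep_tip_base A hc p t y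
    | tip q => exact sep_tip_tip A hc hinj p q (fun h => hne (by rw [h]))

/-- The space has a regular `G_δ`-diagonal. -/
theorem regular_diagonal (hc : ∀ α p, c α p ∈ D)
    (hinj : ∀ α β p q, c α (p ∩ Iic α) = c β (q ∩ Iic β) → α = β ∧ p ∩ Iic α = q ∩ Iic β) :
    letI := topo D A c
    ∃ G : ℕ → Set (Pt K W × Pt K W),
      (∀ n, IsOpen (G n) ∧ Set.diagonal (Pt K W) ⊆ G n) ∧
        (⋂ n, closure (G n)) = Set.diagonal (Pt K W) := by
  let _ := topo D A c
  refine ⟨fun n => ⋃ w, V D c n w ×ˢ V D c n w, ?_, ?_⟩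
  · intro n
    refine ⟨isOpen_iUnion fun w => (isOpen_V A hc n w).prod (isOpen_V A hc n w), ?_⟩
    rintro ⟨z, z'⟩ h
    rw [mem_diagonal_iff] at h
    simp only at h
    subst h
    exact mem_iUnion.2 ⟨z, mem_V n z, mem_V n z⟩
  · apply Subset.antisymm
    · rintro ⟨z, z'⟩ h
      by_contra hne
      rw [mem_diagonal_iff] at hne
      obtain ⟨n, G, G', hG, hG', hz, hz', hsep⟩ := exists_sep A hc hinj (z := z) (z' := z') hne
      have h1 := mem_iInter.1 h n
      rw [mem_closure_iff] at h1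
      obtain ⟨⟨a, b⟩, ⟨ha, hb⟩, hab⟩ := h1 (G ×ˢ G') (hG.prod hG') ⟨hz, hz'⟩
      obtain ⟨w, hw1, hw2⟩ := mem_iUnion.1 hab
      exact hsep w ⟨⟨a, hw1, ha⟩, ⟨b, hw2, hb⟩⟩
    · refine subset_iInter fun n => ?_
      rintro ⟨z, z'⟩ h
      rw [mem_diagonal_iff] at h
      simp only at h
      subst h
      exact subset_closure (mem_iUnion.2 ⟨z, mem_V n z, mem_V n z⟩)

end

end Pool.Agent.H94R3.CellLin
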