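import Mathlib

/-!
# Rectifiable spaces of countable cellularity
-/

set_option autoImplicit false

open Set Topology

namespace Pool.Agent.H94R3.Rect

universe u

/-- `X` is rectifiable: there are a point `e` and a homeomorphism `φ` of `X × X` onto itself with
`φ ({x} × X) = {x} × X` and `φ (x, x) = (x, e)` for every `x`. -/
def Rectifiable (X : Type u) [TopologicalSpace X] : Prop :=
  ∃ (e : X) (φ : X × X ≃ₜ X × X),
    (∀ x, φ '' ({x} ×ˢ univ) = {x} ×ˢ univ) ∧ ∀ x, φ (x, x) = (x, e)

/-- `X` is a `p`-space: it is Tychonoff and there is a sequence of families `γ n` of open subsets of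
the Stone-Čech compactification of `X`, each covering `X`, such that for every `x ∈ X` the
intersection of the stars of `x` with respect to the `γ n` is contained in `X`. -/
def PSpace (X : Type u) [TopologicalSpace X] : Prop :=
  T35Space X ∧ ∃ γ : ℕ → Set (Set (StoneCech X)),
    (∀ n, ∀ U ∈ γ n, IsOpen U) ∧
    (∀ n, range (stoneCechUnit : X → StoneCech X) ⊆ ⋃₀ γ n) ∧
    ∀ x : X, (⋂ n, ⋃₀ {U | U ∈ γ n ∧ (stoneCechUnit x : StoneCech X) ∈ U}) ⊆
      range (stoneCechUnit : X → StoneCech X)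

/-- The cellularity (Souslin number) of `X` is countable: every family of pairwise disjoint nonempty
open sets is countable. -/
def CountableCellularity (X : Type u) [TopologicalSpace X] : Prop :=
  ∀ 𝒰 : Set (Set X), (∀ U ∈ 𝒰, IsOpen U ∧ U.Nonempty) → 𝒰.PairwiseDisjoint id → 𝒰.Countable

/-- The point `e` lies in a compact set `F` with a countable base of neighbourhoods in `X`. -/
def CountableTypeAt (X : Type u) [TopologicalSpace X] (e : X) : Prop :=
  ∃ F : Set X, IsCompact F ∧ e ∈ F ∧ ∃ O : ℕ → Set X, (∀ n, IsOpen (O n) ∧ F ⊆ O n) ∧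
    ∀ W, IsOpen W → F ⊆ W → ∃ n, O n ⊆ W

variable {X : Type u} [TopologicalSpace X]

/-- A `p`-space is of pointwise countable type. -/
theorem PSpace.countableTypeAt (h : PSpace X) (e : X) : CountableTypeAt X e := by
  classical
  obtain ⟨hT, γ, hγo, hγc, hγ⟩ := h
  have hch : ∀ n, ∃ G ∈ γ n, (stoneCechUnit e : StoneCech X) ∈ G := by
    intro n
    obtain ⟨G, hG, heG⟩ := hγc n ⟨e, rfl⟩
    exact ⟨G, hG, heG⟩
  choose G hG heG using hch
  -- shrinking sequence of open sets
  have hstep : ∀ (n : ℕ) (V : {V : Set (StoneCech X) // IsOpen V ∧ stoneCechUnit e ∈ V}),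
      ∃ V' : {V : Set (StoneCech X) // IsOpen V ∧ stoneCechUnit e ∈ V},
        closure V'.1 ⊆ V.1 ∩ G n := by
    rintro n ⟨V, hV, heV⟩
    have h1 : V ∩ G n ∈ 𝓝 (stoneCechUnit e : StoneCech X) :=
      (hV.inter (hγo n _ (hG n))).mem_nhds ⟨heV, heG n⟩
    obtain ⟨K, hK, hKc, hKV⟩ := exists_mem_nhds_isClosed_subset h1
    refine ⟨⟨interior K, isOpen_interior, mem_interior_iff_mem_nhds.2 hK⟩, ?_⟩
    exact (closure_minimal interior_subset hKc).trans hKV
  choose f hf using hstep
  let V : ℕ → {V : Set (StoneCech X) // IsOpen V ∧ stoneCechUnit e ∈ V} := fun n =>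
    Nat.rec ⟨univ, isOpen_univ, mem_univ _⟩ (fun n s => f n s) n
  have hV : ∀ n, V (n + 1) = f n (V n) := fun n => rfl
  have hV1 : ∀ n, closure (V (n + 1)).1 ⊆ (V n).1 ∩ G n := fun n => by rw [hV]; exact hf n (V n)
  have hVanti : Antitone fun n => (V n).1 :=
    antitone_nat_of_succ_le fun n => subset_closure.trans ((hV1 n).trans inter_subset_left)
  have hcl : (⋂ n, (V n).1) = ⋂ n, closure (V n).1 := by
    apply Subset.antisymm
    · exact iInter_mono fun n => subset_closure
    · exact subset_iInter fun n => (iInter_subset _ (n + 1)).trans ((hV1 n).trans inter_subset_left)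
  have hclosed : IsClosed (⋂ n, (V n).1) := by
    rw [hcl]; exact isClosed_iInter fun n => isClosed_closure
  have hsub : (⋂ n, (V n).1) ⊆ range (stoneCechUnit : X → StoneCech X) := by
    refine subset_trans ?_ (hγ e)
    refine subset_iInter fun n => ?_
    refine (iInter_subset _ (n + 1)).trans ?_
    refine subset_closure.trans ((hV1 n).trans (inter_subset_right.trans ?_))
    exact subset_sUnion_of_mem ⟨hG n, heG n⟩
  have hemb : IsEmbedding (stoneCechUnit : X → StoneCech X) := isEmbedding_stoneCechUnit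
  refine ⟨stoneCechUnit ⁻¹' ⋂ n, (V n).1, ?_, ?_, fun n => stoneCechUnit ⁻¹' (V n).1, ?_, ?_⟩
  · rw [hemb.isInducing.isCompact_preimage_iff hsub]
    exact hclosed.isCompact
  · exact mem_iInter.2 fun n => (V n).2.2
  · intro n
    exact ⟨(V n).2.1.preimage continuous_stoneCechUnit, preimage_mono (iInter_subset _ n)⟩
  · intro W hW hFW
    obtain ⟨W', hW', rfl⟩ := hemb.isOpen_iff.1 hW
    have h1 : (⋂ n, closure (V n).1) ⊆ W' := by
      rw [← hcl]
      intro z hz
      obtain ⟨x, rfl⟩ := hsub hz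
      exact hFW hz
    obtain ⟨n, hn⟩ : ∃ n, closure (V n).1 ⊆ W' := by
      by_contra hno
      push Not at hno
      have h2 : (⋂ n, (closure (V n).1 ∩ W'ᶜ)).Nonempty := by
        apply IsCompact.nonempty_iInter_of_directed_nonempty_isCompact_isClosed
        · intro i j
          refine ⟨max i j, ?_, ?_⟩
          · exact inter_subset_inter_left _ (closure_mono (hVanti (le_max_left i j)))
          · exact inter_subset_inter_left _ (closure_mono (hVanti (le_max_right i j)))
        · intro n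
          obtain ⟨z, hz, hzW⟩ := not_subset.1 (hno n)
          exact ⟨z, hz, hzW⟩
        · intro n
          exact (isClosed_closure.inter hW'.isClosed_compl).isCompact
        · intro n
          exact isClosed_closure.inter hW'.isClosed_compl
      obtain ⟨z, hz⟩ := h2
      have hz1 : z ∈ ⋂ n, closure (V n).1 := mem_iInter.2 fun n => (mem_iInter.1 hz n).1
      exact (mem_iInter.1 hz 0).2 (h1 hz1)
    exact ⟨n, preimage_mono (subset_closure.trans hn)⟩

/-- The operations of a rectifiable space. -/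
structure Ops (X : Type u) [TopologicalSpace X] where
  e : X
  p : X → X → X
  q : X → X → X
  cp : Continuous fun z : X × X => p z.1 z.2
  cq : Continuous fun z : X × X => q z.1 z.2
  pq : ∀ x y, p x (q x y) = y
  qp : ∀ x y, q x (p x y) = y
  qx : ∀ x, q x x = e

theorem Rectifiable.ops (h : Rectifiable X) : Nonempty (Ops X) := by
  obtain ⟨e, φ, h1, h2⟩ := h
  have hφ : ∀ x y, (φ (x, y)).1 = x := by
    intro x y
    have : φ (x, y) ∈ ({x} ×ˢ univ : Set (X × X)) := by
      rw [← h1 x]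
      exact ⟨(x, y), ⟨rfl, mem_univ _⟩, rfl⟩
    exact this.1
  have hψ : ∀ x y, (φ.symm (x, y)).1 = x := by
    intro x y
    have : (x, y) ∈ φ '' ({x} ×ˢ univ) := by
      rw [h1 x]
      exact ⟨rfl, mem_univ _⟩
    obtain ⟨z, hz, hzy⟩ := this
    rw [← hzy, Homeomorph.symm_apply_apply]
    exact hz.1
  refine ⟨⟨e, fun x y => (φ.symm (x, y)).2, fun x y => (φ (x, y)).2, ?_, ?_, ?_, ?_, ?_⟩⟩
  · exact continuous_snd.comp φ.symm.continuous
  · exact continuous_snd.comp φ.continuous
  · intro x y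
    have : (x, (φ (x, y)).2) = φ (x, y) := Prod.ext (hφ x y).symm rfl
    rw [this, Homeomorph.symm_apply_apply]
  · intro x y
    have : (x, (φ.symm (x, y)).2) = φ.symm (x, y) := Prod.ext (hψ x y).symm rfl
    rw [this, Homeomorph.apply_symm_apply]
  · intro x
    rw [h2]

namespace Ops

variable (R : Ops X)

theorem pe (x : X) : R.p x R.e = x := by
  rw [← R.qx x, R.pq]

/-- The symmetric neighbourhood of `x` determined by a neighbourhood `U` of `e`. -/
def h (U : Set X) (x : X) : Set X := {y | R.q x y ∈ U ∧ R.q y x ∈ U}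

theorem isOpen_h {U : Set X} (hU : IsOpen U) (x : X) : IsOpen (R.h U x) := by
  have h1 : Continuous fun y => R.q x y :=
    R.cq.comp (continuous_const.prodMk continuous_id)
  have h2 : Continuous fun y => R.q y x :=
    R.cq.comp (continuous_id.prodMk continuous_const)
  exact (hU.preimage h1).inter (hU.preimage h2)

theorem mem_h {U : Set X} (hU : R.e ∈ U) (x : X) : x ∈ R.h U x := by
  simp only [h, mem_ofPred_eq, R.qx, and_self]
  exact hU

/-- In a space of countable cellularity, countably many of the sets `h U x` have dense union. -/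
theorem exists_dense_seq (hc : CountableCellularity X) (U : Set X) (hU : IsOpen U)
    (heU : R.e ∈ U) : ∃ c : ℕ → X, Dense (⋃ k, R.h U (c k)) := by
  classical
  obtain ⟨𝒱, h𝒱⟩ := zorn_subset
    {𝒱 : Set (Set X) | (∀ V ∈ 𝒱, IsOpen V ∧ V.Nonempty ∧ ∃ x, V ⊆ R.h U x) ∧
      𝒱.PairwiseDisjoint id} (by
    intro c hc hchain
    refine ⟨⋃₀ c, ⟨?_, ?_⟩, fun s hs => subset_sUnion_of_mem hs⟩
    · rintro V ⟨s, hs, hV⟩
      exact (hc hs).1 V hV
    · rintro V ⟨s, hs, hV⟩ W ⟨t, ht, hW⟩ hne
      rcases hchain.total hs ht with hst | hst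
      · exact (hc ht).2 (hst hV) hW hne
      · exact (hc hs).2 hV (hst hW) hne)
  have hcount : 𝒱.Countable :=
    hc 𝒱 (fun V hV => ⟨(h𝒱.prop.1 V hV).1, (h𝒱.prop.1 V hV).2.1⟩) h𝒱.prop.2
  have hx : ∀ V : Set X, ∃ x, V ∈ 𝒱 → V ⊆ R.h U x := by
    intro V
    by_cases hV : V ∈ 𝒱
    · obtain ⟨x, hx⟩ := (h𝒱.prop.1 V hV).2.2
      exact ⟨x, fun _ => hx⟩
    · exact ⟨R.e, fun h => absurd h hV⟩
  choose g hg using hx
  have hC : (insert R.e (g '' 𝒱)).Countable := (hcount.image g).insert _
  obtain ⟨c, hc'⟩ := hC.exists_eq_range (insert_nonempty _ _)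
  refine ⟨c, ?_⟩
  rw [dense_iff_inter_open]
  rintro O hO ⟨z, hz⟩
  by_contra hemp
  rw [not_nonempty_iff_eq_empty] at hemp
  have hcov : ∀ V ∈ 𝒱, V ⊆ ⋃ k, R.h U (c k) := by
    intro V hV
    have : g V ∈ range c := hc' ▸ mem_insert_of_mem _ ⟨V, hV, rfl⟩
    obtain ⟨k, hk⟩ := this
    exact (hg V hV).trans (hk ▸ subset_iUnion (fun k => R.h U (c k)) k)
  have hnew : O ∩ R.h U z ∈ 𝒱 := by
    have h1 : insert (O ∩ R.h U z) 𝒱 ∈ {𝒱 : Set (Set X) |
        (∀ V ∈ 𝒱, IsOpen V ∧ V.Nonempty ∧ ∃ x, V ⊆ R.h U x) ∧ 𝒱.PairwiseDisjoint id} := by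
      refine ⟨?_, ?_⟩
      · rintro V (rfl | hV)
        · exact ⟨hO.inter (R.isOpen_h hU z), ⟨z, hz, R.mem_h heU z⟩, z, inter_subset_right⟩
        · exact h𝒱.prop.1 V hV
      · refine h𝒱.prop.2.insert ?_
        intro V hV _
        change Disjoint (O ∩ R.h U z) V
        rw [Set.disjoint_left]
        intro w hw hwV
        have : w ∈ O ∩ ⋃ k, R.h U (c k) := ⟨hw.1, hcov V hV hwV⟩
        rw [hemp] at this
        exact this
    rw [h𝒱.eq_of_subset h1 (subset_insert _ _)]
    exact mem_insert _ _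
  have : z ∈ O ∩ ⋃ k, R.h U (c k) := ⟨hz, hcov _ hnew ⟨hz, R.mem_h heU z⟩⟩
  rw [hemp] at this
  exact this

end Ops

end Pool.Agent.H94R3.Rect
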