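import Pool.Agent.H94R3.Rect

/-!
# Rectifiable spaces of pointwise countable type and countable cellularity are Lindelöf
-/

set_option autoImplicit false

open Set Topology

namespace Pool.Agent.H94R3.Rect

universe u

variable {X : Type u} [TopologicalSpace X]

theorem Ops.lindelof [T2Space X] [RegularSpace X] (R : Ops X) (hc : CountableCellularity X)
    (hF : CountableTypeAt X R.e) : LindelofSpace X := by
  classical
  obtain ⟨F, hFc, heF, O, hO, hbase⟩ := hF
  -- choice of countable sets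
  have hcU : ∀ U : {U : Set X // IsOpen U ∧ R.e ∈ U}, ∃ c : ℕ → X, Dense (⋃ k, R.h U.1 (c k)) :=
    fun U => R.exists_dense_seq hc U.1 U.2.1 U.2.2
  choose cU hcU using hcU
  let cc : X → X → X → X := fun x a b => R.q x (R.p (R.p x a) b)
  have hccont : Continuous fun z : X × X × X => cc z.1 z.2.1 z.2.2 := by
    have h1 : Continuous fun z : X × X × X => R.p z.1 z.2.1 :=
      R.cp.comp (continuous_fst.prodMk (continuous_fst.comp continuous_snd))
    have h2 : Continuous fun z : X × X × X => R.p (R.p z.1 z.2.1) z.2.2 :=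
      R.cp.comp (h1.prodMk (continuous_snd.comp continuous_snd))
    exact R.cq.comp (continuous_fst.prodMk h2)
  have hce : ∀ x, cc x R.e R.e = R.e := by
    intro x
    simp only [cc, R.pe, R.qx]
  -- the recursion step
  have hstep : ∀ (n : ℕ) (s : {U : Set X // IsOpen U ∧ R.e ∈ U} × List (ℕ → X)),
      ∃ U' : {U : Set X // IsOpen U ∧ R.e ∈ U},
        closure U'.1 ⊆ s.1.1 ∩ O n ∧
        ∀ c ∈ s.2, ∀ j ≤ n, ∀ a ∈ U'.1, ∀ b ∈ U'.1, cc (c j) a b ∈ s.1.1 := by
    rintro n ⟨⟨U, hU, heU⟩, l⟩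
    have hO' : R.e ∈ O n := (hO n).2 heF
    -- neighbourhoods for a single point
    have h4 : ∀ x, ∃ V ∈ 𝓝 R.e, ∀ a ∈ V, ∀ b ∈ V, cc x a b ∈ U := by
      intro x
      have h2 : Continuous fun z : X × X => cc x z.1 z.2 :=
        hccont.comp (continuous_const.prodMk continuous_id)
      have h3 : (fun z : X × X => cc x z.1 z.2) ⁻¹' U ∈ 𝓝 (R.e, R.e) :=
        (hU.preimage h2).mem_nhds (by simp only [mem_preimage, hce]; exact heU)
      rw [nhds_prod_eq, Filter.mem_prod_iff] at h3
      obtain ⟨t1, ht1, t2, ht2, h⟩ := h3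
      exact ⟨t1 ∩ t2, Filter.inter_mem ht1 ht2, fun a ha b hb =>
        h (show (a, b) ∈ t1 ×ˢ t2 from ⟨ha.1, hb.2⟩)⟩
    choose V hV1 hV2 using h4
    have h5 : (⋂ c ∈ l.toFinset, ⋂ j ∈ Finset.range (n + 1), V (c j)) ∈ 𝓝 R.e := by
      rw [Filter.biInter_finset_mem]
      intro c _
      rw [Filter.biInter_finset_mem]
      intro j _
      exact hV1 _
    have h6 : (U ∩ O n) ∩ (⋂ c ∈ l.toFinset, ⋂ j ∈ Finset.range (n + 1), V (c j)) ∈ 𝓝 R.e :=
      Filter.inter_mem ((hU.inter (hO n).1).mem_nhds ⟨heU, hO'⟩) h5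
    obtain ⟨K, hK, hKc, hKV⟩ := exists_mem_nhds_isClosed_subset h6
    refine ⟨⟨interior K, isOpen_interior, mem_interior_iff_mem_nhds.2 hK⟩, ?_, ?_⟩
    · exact (closure_minimal interior_subset hKc).trans (hKV.trans inter_subset_left)
    · intro c hc j hj a ha b hb
      have ha' := (hKV (interior_subset ha)).2
      have hb' := (hKV (interior_subset hb)).2
      simp only [mem_iInter] at ha' hb'
      exact hV2 _ a (ha' c (List.mem_toFinset.2 hc) j (Finset.mem_range.2 (by omega)))
        b (hb' c (List.mem_toFinset.2 hc) j (Finset.mem_range.2 (by omega)))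
  choose f hf1 hf2 using hstep
  let st : ℕ → {U : Set X // IsOpen U ∧ R.e ∈ U} × List (ℕ → X) := fun n =>
    Nat.rec (⟨univ, isOpen_univ, mem_univ _⟩, [cU ⟨univ, isOpen_univ, mem_univ _⟩])
      (fun n s => (f n s, cU (f n s) :: s.2)) n
  have hst : ∀ n, st (n + 1) = (f n (st n), cU (f n (st n)) :: (st n).2) := fun n => rfl
  let U : ℕ → Set X := fun n => (st n).1.1
  have hUo : ∀ n, IsOpen (U n) := fun n => (st n).1.2.1
  have heU : ∀ n, R.e ∈ U n := fun n => (st n).1.2.2
  have hU1 : ∀ n, closure (U (n + 1)) ⊆ U n ∩ O n := fun n => by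
    have := hf1 n (st n)
    exact this
  have hUanti : Antitone U :=
    antitone_nat_of_succ_le fun n => subset_closure.trans ((hU1 n).trans inter_subset_left)
  have hmem : ∀ i n, i ≤ n → cU (st i).1 ∈ (st n).2 := by
    intro i n hin
    induction n with
    | zero =>
      obtain rfl : i = 0 := by omega
      exact List.mem_cons_self
    | succ n ih =>
      rcases Nat.le_succ_iff.1 hin with h | h
      · rw [hst]
        exact List.mem_cons_of_mem _ (ih h)
      · rw [h]
        change cU (st (n + 1)).1 ∈ (st (n + 1)).2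
        rw [hst]
        exact List.mem_cons_self
  have hU2 : ∀ i j n, i ≤ n → j ≤ n → ∀ a ∈ U (n + 1), ∀ b ∈ U (n + 1),
      cc (cU (st i).1 j) a b ∈ U n := by
    intro i j n hi hj a ha b hb
    exact hf2 n (st n) _ (hmem i n hi) j hj a ha b hb
  -- the compact set `N`
  let N : Set X := ⋂ n, U n
  have hNcl : N = ⋂ n, closure (U n) := by
    apply Subset.antisymm
    · exact iInter_mono fun n => subset_closure
    · exact subset_iInter fun n => (iInter_subset _ (n + 1)).trans ((hU1 n).trans inter_subset_left)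
  have hNclosed : IsClosed N := by
    rw [hNcl]; exact isClosed_iInter fun n => isClosed_closure
  have hNF : N ⊆ F := by
    intro x hx
    by_contra hxF
    obtain ⟨n, hn⟩ := hbase {x}ᶜ isOpen_compl_singleton (by
      intro y hy hyx
      rw [mem_singleton_iff] at hyx
      exact hxF (hyx ▸ hy))
    have h1 : x ∈ closure (U (n + 1)) := subset_closure (mem_iInter.1 hx (n + 1))
    exact hn ((hU1 n h1).2) rfl
  have hNc : IsCompact N := hFc.of_isClosed_subset hNclosed hNF
  have heN : R.e ∈ N := mem_iInter.2 heU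
  have hNU : ∀ n, N ⊆ U n := fun n => iInter_subset _ n
  have hNbase : ∀ W, IsOpen W → N ⊆ W → ∃ n, U n ⊆ W := by
    intro W hW hNW
    obtain ⟨n, hn⟩ : ∃ n, F ∩ closure (U n) ⊆ W := by
      by_contra hno
      push Not at hno
      have h2 : (⋂ n, (F ∩ closure (U n) ∩ Wᶜ)).Nonempty := by
        apply IsCompact.nonempty_iInter_of_directed_nonempty_isCompact_isClosed
        · intro i j
          refine ⟨max i j, ?_, ?_⟩
          · exact inter_subset_inter_left _ (inter_subset_inter_right _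
              (closure_mono (hUanti (le_max_left i j))))
          · exact inter_subset_inter_left _ (inter_subset_inter_right _
              (closure_mono (hUanti (le_max_right i j))))
        · intro n
          obtain ⟨z, hz, hzW⟩ := not_subset.1 (hno n)
          exact ⟨z, hz, hzW⟩
        · intro n
          exact (hFc.inter_right isClosed_closure).inter_right hW.isClosed_compl
        · intro n
          exact (hFc.isClosed.inter isClosed_closure).inter hW.isClosed_compl
      obtain ⟨z, hz⟩ := h2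
      have hz1 : z ∈ N := by
        rw [hNcl]
        exact mem_iInter.2 fun n => (mem_iInter.1 hz n).1.2
      exact (mem_iInter.1 hz 0).2 (hNW hz1)
    obtain ⟨m, hm⟩ := hbase (W ∪ (closure (U n))ᶜ) (hW.union isClosed_closure.isOpen_compl) (by
      intro x hx
      by_cases hxn : x ∈ closure (U n)
      · exact Or.inl (hn ⟨hx, hxn⟩)
      · exact Or.inr hxn)
    refine ⟨max (m + 1) n, ?_⟩
    intro x hx
    have h1 : x ∈ O m := (hU1 m (subset_closure (hUanti (le_max_left _ _) hx))).2
    rcases hm h1 with h | h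
    · exact h
    · exact absurd (subset_closure (hUanti (le_max_right _ _) hx)) h
  -- the countable set `C`
  let C : Set X := ⋃ i, range (cU (st i).1)
  have hCc : C.Countable := countable_iUnion fun i => countable_range _
  have hCdense : ∀ n, Dense (⋃ k, R.h (U n) (cU (st n).1 k)) := fun n => hcU (st n).1
  have hNC : ∀ y ∈ closure C, ∀ a ∈ N, ∀ b ∈ N, cc y a b ∈ N := by
    intro y hy a ha b hb
    have h1 : Continuous fun y => cc y a b := by
      have h0 : Continuous fun y : X => (y, a, b) := continuous_id.prodMk continuous_const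
      exact hccont.comp h0
    have h2 : C ⊆ (fun y => cc y a b) ⁻¹' N := by
      rintro c hc
      obtain ⟨i, j, rfl⟩ := mem_iUnion.1 hc
      refine mem_iInter.2 fun n => ?_
      have h3 := hU2 i j (max n (max i j)) (by omega) (by omega) a (hNU (_ + 1) ha) b
        (hNU (_ + 1) hb)
      exact hUanti (le_max_left _ _) h3
    exact (closure_minimal h2 (hNclosed.preimage h1)) hy
  -- every point is close to a point of the closure of `C`
  have hclose : ∀ x, ∃ y ∈ closure C, R.q x y ∈ N ∧ R.q y x ∈ N := by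
    intro x
    by_contra hno
    push Not at hno
    let 𝒲 : ℕ → Set (X × X) := fun m =>
      {z | R.p z.1 z.2 ∈ (closure C)ᶜ ∨ R.q (R.p z.1 z.2) z.1 ∈ (closure (U m))ᶜ}
    have h𝒲o : ∀ m, IsOpen (𝒲 m) := by
      intro m
      have h1 : Continuous fun z : X × X => R.q (R.p z.1 z.2) z.1 :=
        R.cq.comp (R.cp.prodMk continuous_fst)
      exact (isClosed_closure.isOpen_compl.preimage R.cp).union
        (isClosed_closure.isOpen_compl.preimage h1)
    have h𝒲m : Monotone 𝒲 := by
      intro m n hmn z hz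
      rcases hz with hz | hz
      · exact Or.inl hz
      · exact Or.inr fun h => hz (closure_mono (hUanti hmn) h)
    have h1 : ({x} ×ˢ N : Set (X × X)) ⊆ ⋃ m, 𝒲 m := by
      rintro ⟨x', a⟩ ⟨hx', ha⟩
      rw [mem_singleton_iff] at hx'
      simp only at hx' ha
      subst hx'
      by_cases hp : R.p x' a ∈ closure C
      · have h2 := hno (R.p x' a) hp (by rw [R.qp]; exact ha)
        rw [hNcl] at h2
        simp only [mem_iInter, not_forall] at h2
        obtain ⟨m, hm⟩ := h2
        exact mem_iUnion.2 ⟨m, Or.inr hm⟩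
      · exact mem_iUnion.2 ⟨0, Or.inl hp⟩
    obtain ⟨m, hm⟩ := (isCompact_singleton.prod hNc).elim_directed_cover 𝒲 h𝒲o h1
      h𝒲m.directed_le
    obtain ⟨G, V, hG, hV, hxG, hNV, hGV⟩ :=
      generalized_tube_lemma isCompact_singleton hNc (h𝒲o m) hm
    obtain ⟨n, hn⟩ := hNbase V hV hNV
    have hxG' : x ∈ G := hxG rfl
    obtain ⟨z, hzG, hz⟩ := (hCdense (max m n)).inter_open_nonempty G hG ⟨x, hxG'⟩
    obtain ⟨k, hk⟩ := mem_iUnion.1 hz
    have hzc : (z, R.q z (cU (st (max m n)).1 k)) ∈ 𝒲 m := by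
      apply hGV
      refine ⟨hzG, hn (hUanti (le_max_right m n) hk.2)⟩
    rcases hzc with h | h
    · simp only [R.pq] at h
      exact h (subset_closure (mem_iUnion.2 ⟨_, k, rfl⟩))
    · simp only [R.pq] at h
      exact h (subset_closure (hUanti (le_max_left m n) hk.1))
  -- the Lindelöf property
  constructor
  apply isLindelof_of_countable_subcover
  intro ι W hW hcov
  have hkey : ∀ x, ∃ c ∈ C, ∃ k, (∃ t : Finset ι, R.p c '' (U k) ⊆ ⋃ i ∈ t, W i) ∧
      x ∈ R.p c '' (U k) := by
    intro x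
    obtain ⟨y, hy, hxy, hyx⟩ := hclose x
    have hcpy : Continuous (R.p y) := R.cp.comp (continuous_const.prodMk continuous_id)
    have hK : IsCompact (R.p y '' N) := hNc.image hcpy
    obtain ⟨t, ht⟩ := hK.elim_finite_subcover W hW (fun z _ => hcov (mem_univ z))
    have hWt : IsOpen (⋃ i ∈ t, W i) := isOpen_biUnion fun i _ => hW i
    have hsub : (R.p y '' N) ×ˢ N ⊆ (fun z : X × X => R.p z.1 z.2) ⁻¹' ⋃ i ∈ t, W i := by
      rintro ⟨z, b⟩ ⟨⟨a, ha, rfl⟩, hb⟩
      apply ht
      refine ⟨cc y a b, hNC y hy a ha b hb, ?_⟩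
      simp only [cc]
      rw [R.pq]
    obtain ⟨G, V, hG, hV, hyG, hNV, hGV⟩ :=
      generalized_tube_lemma hK hNc (hWt.preimage R.cp) hsub
    obtain ⟨k, hk⟩ := hNbase V hV hNV
    have hyG' : y ∈ G := hyG ⟨R.e, heN, R.pe y⟩
    have hcq : Continuous fun c => R.q c x := R.cq.comp (continuous_id.prodMk continuous_const)
    obtain ⟨c, ⟨hcG, hcU'⟩, hcC⟩ := mem_closure_iff.1 hy (G ∩ (fun c => R.q c x) ⁻¹' U k)
      (hG.inter ((hUo k).preimage hcq)) ⟨hyG', hNU k hyx⟩
    refine ⟨c, hcC, k, ⟨t, ?_⟩, R.q c x, hcU', R.pq c x⟩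
    rintro _ ⟨u, hu, rfl⟩
    exact hGV (show (c, u) ∈ G ×ˢ V from ⟨hcG, hk hu⟩)
  let P : Set (X × ℕ) := {z | z.1 ∈ C ∧ ∃ t : Finset ι, R.p z.1 '' (U z.2) ⊆ ⋃ i ∈ t, W i}
  have hP : P.Countable := by
    refine (hCc.prod (countable_univ (α := ℕ))).mono ?_
    intro z hz
    exact ⟨hz.1, mem_univ _⟩
  have ht : ∀ z : X × ℕ, ∃ t : Finset ι, z ∈ P → R.p z.1 '' (U z.2) ⊆ ⋃ i ∈ t, W i := by
    intro z
    by_cases hz : z ∈ P
    · obtain ⟨t, ht⟩ := hz.2
      exact ⟨t, fun _ => ht⟩
    · exact ⟨∅, fun h => absurd h hz⟩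
  choose t ht using ht
  refine ⟨⋃ z ∈ P, (t z : Set ι), hP.biUnion fun z _ => (t z).countable_toSet, ?_⟩
  intro x _
  obtain ⟨c, hcC, k, hk, hx⟩ := hkey x
  have hz : (c, k) ∈ P := ⟨hcC, hk⟩
  obtain ⟨i, hi⟩ := mem_iUnion.1 (ht (c, k) hz hx)
  obtain ⟨hi, hxi⟩ := mem_iUnion.1 hi
  exact mem_iUnion₂.2 ⟨i, mem_iUnion₂.2 ⟨(c, k), hz, hi⟩, hxi⟩

/-- Every rectifiable `p`-space of countable cellularity is Lindelöf. -/
theorem lindelof (hr : Rectifiable X) (hp : PSpace X) (hc : CountableCellularity X) :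
    LindelofSpace X := by
  obtain ⟨R⟩ := hr.ops
  have h35 : T35Space X := hp.1
  exact R.lindelof hc (hp.countableTypeAt R.e)

end Pool.Agent.H94R3.Rect
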