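import Pool.Agent.H94R3.Sigma

/-!
# D-separability of sequential spaces
-/

set_option autoImplicit false

open Set Topology Filter TopologicalSpace

namespace Pool.Agent.H94R3.Sequential

open Pool.Agent.H94R3.Sigma

universe u

/-- A sequential Hausdorff space is discretely generated: every point of the closure of a set `A`
is in the closure of a discrete subset of `A`. -/
theorem exists_isDiscrete_of_mem_closure {X : Type u} [TopologicalSpace X] [T2Space X]
    [SequentialSpace X] (A : Set X) (x : X) (hx : x ∈ closure A) :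
    ∃ E, E ⊆ A ∧ IsDiscrete E ∧ x ∈ closure E := by
  classical
  let A' : Set X := {y | ∃ E, E ⊆ A ∧ IsDiscrete E ∧ y ∈ closure E}
  have hAA' : A ⊆ A' := by
    intro a ha
    refine ⟨{a}, by simpa using ha, ?_, subset_closure rfl⟩
    rw [isDiscrete_iff_forall_mem_exists_isOpen]
    intro y hy
    refine ⟨univ, isOpen_univ, ?_⟩
    rw [mem_singleton_iff] at hy
    subst hy
    simp
  have hcl : IsClosed A' := by
    apply IsSeqClosed.isClosed
    intro s p hs hp
    by_cases hsp : ∃ k, s k = p
    · obtain ⟨k, rfl⟩ := hsp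
      exact hs k
    push Not at hsp
    choose E hE using hs
    have hsep : ∀ k, ∃ U V : Set X, IsOpen U ∧ IsOpen V ∧ s k ∈ U ∧ p ∈ V ∧ Disjoint U V :=
      fun k => t2_separation (hsp k)
    choose U V hU hV hsU hpV hUV using hsep
    obtain ⟨f, -, hf⟩ := exists_seq_of_forall_finset_exists (fun _ : ℕ => True)
      (fun i j => s j ∈ V i ∧ i < j) (by
        intro t _
        have h1 : ∀ᶠ j in atTop, ∀ i ∈ t, s j ∈ V i ∧ i < j := by
          rw [Finset.eventually_all]
          intro i _
          exact ((hp.eventually ((hV i).mem_nhds (hpV i))).and (eventually_gt_atTop i))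
        obtain ⟨j, hj⟩ := h1.exists
        exact ⟨j, trivial, hj⟩)
    have hfm : StrictMono f := strictMono_nat_of_lt_succ fun n => (hf n (n + 1) (by omega)).2
    let W : ℕ → Set X := fun n => U (f n) ∩ ⋂ m ∈ Finset.range n, V (f m)
    have hW : ∀ n, IsOpen (W n) := fun n =>
      (hU (f n)).inter (isOpen_biInter_finset fun m _ => hV (f m))
    have hsW : ∀ n, s (f n) ∈ W n := by
      intro n
      refine ⟨hsU _, ?_⟩
      simp only [mem_iInter, Finset.mem_range]
      intro m hm
      exact (hf m n hm).1
    have hdis : ∀ m n, m < n → Disjoint (W m) (W n) := by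
      intro m n hmn
      rw [Set.disjoint_left]
      intro y hy hy'
      have h1 : y ∈ V (f m) := by
        have := hy'.2
        simp only [mem_iInter, Finset.mem_range] at this
        exact this m hmn
      exact Set.disjoint_left.1 (hUV (f m)) hy.1 h1
    refine ⟨⋃ n, E (f n) ∩ W n, ?_, ?_, ?_⟩
    · intro y hy
      obtain ⟨n, hn⟩ := mem_iUnion.1 hy
      exact (hE (f n)).1 hn.1
    · rw [isDiscrete_iff_forall_mem_exists_isOpen]
      intro y hy
      obtain ⟨n, hn⟩ := mem_iUnion.1 hy
      obtain ⟨O, hO, hOy⟩ := isDiscrete_iff_forall_mem_exists_isOpen.1 (hE (f n)).2.1 y hn.1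
      refine ⟨O ∩ W n, hO.inter (hW n), ?_⟩
      apply Subset.antisymm
      · rintro z ⟨⟨hzO, hzW⟩, hz⟩
        obtain ⟨m, hm⟩ := mem_iUnion.1 hz
        have hmn : m = n := by
          rcases lt_trichotomy m n with h | h | h
          · exact absurd hzW (Set.disjoint_left.1 (hdis m n h) hm.2)
          · exact h
          · exact absurd hm.2 (Set.disjoint_left.1 (hdis n m h) hzW)
        subst hmn
        rw [← hOy]
        exact ⟨hzO, hm.1⟩
      · intro z hz
        rw [mem_singleton_iff] at hz
        subst hz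
        have h1 : z ∈ O ∩ E (f n) := by rw [hOy]; rfl
        exact ⟨⟨h1.1, hn.2⟩, mem_iUnion.2 ⟨n, hn⟩⟩
    · refine isClosed_closure.mem_of_tendsto (hp.comp hfm.tendsto_atTop) (Eventually.of_forall ?_)
      intro n
      have h1 : s (f n) ∈ closure (E (f n) ∩ W n) := by
        rw [mem_closure_iff]
        intro O hO hsO
        obtain ⟨z, hz⟩ := mem_closure_iff.1 (hE (f n)).2.2 (O ∩ W n) (hO.inter (hW n)) ⟨hsO, hsW n⟩
        exact ⟨z, hz.1.1, hz.2, hz.1.2⟩
      exact closure_mono (subset_iUnion (fun n => E (f n) ∩ W n) n) h1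
  have : closure A ⊆ A' := closure_minimal hAA' hcl
  exact this hx

/-- Every separable sequential Hausdorff space is D-separable. -/
theorem selectivelyDSeparable_of_sequential (X : Type u) [TopologicalSpace X] [T2Space X]
    [SequentialSpace X] [SeparableSpace X] : SelectivelyDSeparable X := by
  classical
  intro D hD
  obtain ⟨S, hS, hSd⟩ := TopologicalSpace.exists_countable_dense X
  rcases isEmpty_or_nonempty X with hX | hX
  · exact ⟨fun _ => ∅, fun n => ⟨empty_subset _, by
      rw [isDiscrete_iff_forall_mem_exists_isOpen]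
      intro y hy
      exact absurd hy (notMem_empty y)⟩, fun x => (hX.false x).elim⟩
  obtain ⟨x0, hx0⟩ := hSd.nonempty
  obtain ⟨e, he⟩ := hS.exists_eq_range ⟨x0, hx0⟩
  have h : ∀ n, ∃ E, E ⊆ D n ∧ IsDiscrete E ∧ e n ∈ closure E := fun n =>
    exists_isDiscrete_of_mem_closure (D n) (e n) (hD n (e n))
  choose E hE using h
  refine ⟨E, fun n => ⟨(hE n).1, (hE n).2.1⟩, ?_⟩
  apply Dense.of_closure
  refine hSd.mono ?_
  rw [he]
  rintro _ ⟨n, rfl⟩
  exact closure_mono (subset_iUnion E n) (hE n).2.2

/-! ### A countable `T₁` example -/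

/-- The countable set `ℕ × ℕ` with the topology in which the nonempty open sets are the sets all of
whose vertical sections are cofinite. -/
structure Grid where
  /-- the column -/
  fst : ℕ
  /-- the row -/
  snd : ℕ

instance : Countable Grid :=
  Function.Injective.countable (f := fun x : Grid => (x.fst, x.snd)) (by
    rintro ⟨a, b⟩ ⟨c, d⟩ h
    simp only [Prod.mk.injEq] at h
    rw [h.1, h.2])

instance : TopologicalSpace Grid where
  IsOpen U := U = ∅ ∨ ∀ n : ℕ, {m : ℕ | (Grid.mk n m) ∉ U}.Finite
  isOpen_univ := Or.inr fun n => by simp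
  isOpen_inter := by
    rintro s t (rfl | hs) (rfl | ht)
    · simp
    · simp
    · simp
    · right
      intro n
      refine ((hs n).union (ht n)).subset ?_
      intro m hm
      by_contra h
      simp only [mem_union, mem_ofPred_eq, not_or, not_not] at h hm
      exact hm h
  isOpen_sUnion := by
    intro S hS
    by_cases h : ∃ s ∈ S, s.Nonempty
    · obtain ⟨s, hsS, hs⟩ := h
      right
      intro n
      rcases hS s hsS with rfl | h'
      · exact absurd hs not_nonempty_empty
      · refine (h' n).subset ?_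
        intro m hm hms
        exact hm ⟨s, hsS, hms⟩
    · left
      push Not at h
      rw [sUnion_eq_empty]
      exact h

theorem isOpen_iff {U : Set Grid} :
    IsOpen U ↔ U = ∅ ∨ ∀ n : ℕ, {m : ℕ | (Grid.mk n m) ∉ U}.Finite := Iff.rfl

/-- The `n`-th column. -/
def col (n : ℕ) : Set Grid := range fun m : ℕ => (Grid.mk n m)

theorem tendsto_col (n : ℕ) (s : ℕ → ℕ) (hs : Function.Injective s) (x : Grid) :
    Tendsto (fun k => (Grid.mk n (s k))) atTop (𝓝 x) := by
  rw [tendsto_nhds]
  intro U hU hx
  rcases isOpen_iff.1 hU with rfl | h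
  · exact absurd hx (notMem_empty x)
  · have h1 : {k | (Grid.mk n (s k)) ∉ U}.Finite :=
      ((h n).preimage hs.injOn)
    have h2 : {k | (Grid.mk n (s k)) ∉ U}ᶜ ∈ (atTop : Filter ℕ) := by
      rw [← Nat.cofinite_eq_atTop]
      exact h1.compl_mem_cofinite
    refine mem_of_superset h2 ?_
    intro k hk
    simpa using hk

theorem dense_col (n : ℕ) : Dense (col n) := fun x =>
  mem_closure_of_tendsto (tendsto_col n id Function.injective_id x)
    (Eventually.of_forall fun k => ⟨k, rfl⟩)

instance : T1Space Grid := by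
  constructor
  intro x
  rw [← isOpen_compl_iff, isOpen_iff]
  right
  intro n
  refine (finite_singleton x.snd).subset ?_
  intro m hm
  simp only [mem_ofPred_eq, mem_compl_iff, not_not, mem_singleton_iff] at hm
  rw [mem_singleton_iff, ← hm]

/-- A set with finite columns is closed, a set with an infinite column is dense. -/
theorem isClosed_of_finite {A : Set Grid} (h : ∀ n : ℕ, {m : ℕ | (Grid.mk n m) ∈ A}.Finite) :
    IsClosed A := by
  rw [← isOpen_compl_iff, isOpen_iff]
  right
  intro n
  refine (h n).subset ?_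
  intro m hm
  simpa using hm

instance : FrechetUrysohnSpace Grid := by
  constructor
  intro A x hx
  by_cases h : ∀ n : ℕ, {m : ℕ | (Grid.mk n m) ∈ A}.Finite
  · rw [(isClosed_of_finite h).closure_eq] at hx
    exact ⟨fun _ => x, fun _ => hx, tendsto_const_nhds⟩
  · push Not at h
    obtain ⟨n, hn⟩ := h
    let s := (Set.Infinite.natEmbedding _ hn)
    exact ⟨fun k => (Grid.mk n (s k : ℕ)), fun k => (s k).2,
      tendsto_col n (fun k => (s k : ℕ)) (fun a b hab => s.injective (Subtype.ext hab)) x⟩

/-- A discrete subset of a column is finite. -/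
theorem finite_of_isDiscrete {n : ℕ} {F : Set Grid} (hF : F ⊆ col n) (hd : IsDiscrete F) :
    F.Finite := by
  classical
  rcases F.eq_empty_or_nonempty with rfl | ⟨y, hy⟩
  · exact finite_empty
  obtain ⟨O, hO, hOy⟩ := isDiscrete_iff_forall_mem_exists_isOpen.1 hd y hy
  have hyO : y ∈ O := by
    have : y ∈ O ∩ F := by rw [hOy]; rfl
    exact this.1
  rcases isOpen_iff.1 hO with rfl | h
  · exact absurd hyO (notMem_empty y)
  have h1 : F ⊆ insert y ((fun m : ℕ => (Grid.mk n m)) '' {m : ℕ | (Grid.mk n m) ∉ O}) := by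
    intro z hz
    obtain ⟨m, rfl⟩ := hF hz
    by_cases hzO : (Grid.mk n m) ∈ O
    · left
      have : (Grid.mk n m) ∈ O ∩ F := ⟨hzO, hz⟩
      rw [hOy] at this
      exact this
    · right
      exact ⟨m, hzO, rfl⟩
  exact (((h n).image _).insert y).subset h1

theorem not_selectivelyDSeparable_grid : ¬ SelectivelyDSeparable Grid := by
  intro h
  obtain ⟨F, hF, hd⟩ := h col dense_col
  have hcl : IsClosed (⋃ n, F n) := by
    apply isClosed_of_finite
    intro n
    have h1 : {m : ℕ | (Grid.mk n m) ∈ ⋃ n, F n} ⊆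
        (fun m : ℕ => (Grid.mk n m)) ⁻¹' (F n) := by
      intro m hm
      obtain ⟨k, hk⟩ := mem_iUnion.1 hm
      obtain ⟨l, hl⟩ := (hF k).1 hk
      have : k = n := congrArg Grid.fst hl
      subst this
      exact hk
    refine Finite.subset (Finite.preimage ?_ (finite_of_isDiscrete (hF n).1 (hF n).2)) h1
    intro a _ b _ hab
    exact congrArg Grid.snd hab
  have huniv : (⋃ n, F n) = univ := by rw [← hcl.closure_eq, hd.closure_eq]
  have h0 : (col 0) ⊆ F 0 := by
    intro z hz
    have hz' : z ∈ ⋃ n, F n := by rw [huniv]; trivial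
    obtain ⟨k, hk⟩ := mem_iUnion.1 hz'
    obtain ⟨l, rfl⟩ := (hF k).1 hk
    obtain ⟨m, hm⟩ := hz
    have : 0 = k := congrArg Grid.fst hm
    subst this
    exact hk
  have hfin : (col 0).Finite := (finite_of_isDiscrete (hF 0).1 (hF 0).2).subset h0
  have hinf : (col 0).Infinite := by
    apply infinite_range_of_injective
    intro a b hab
    exact congrArg Grid.snd hab
  exact hinf hfin

/-- A countable `T₁` space is d-separable. -/
theorem weaklyDSeparable_of_countable (X : Type u) [TopologicalSpace X] [Countable X] :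
    WeaklyDSeparable X := by
  classical
  rcases isEmpty_or_nonempty X with hX | hX
  · exact ⟨fun _ => ∅, fun n => by
      rw [isDiscrete_iff_forall_mem_exists_isOpen]
      intro y hy
      exact absurd hy (notMem_empty y), fun x => (hX.false x).elim⟩
  obtain ⟨e, he⟩ := exists_surjective_nat X
  refine ⟨fun n => {e n}, fun n => ?_, ?_⟩
  · rw [isDiscrete_iff_forall_mem_exists_isOpen]
    intro y hy
    refine ⟨univ, isOpen_univ, ?_⟩
    rw [mem_singleton_iff] at hy
    subst hy
    simp
  · have : (⋃ n, {e n}) = (univ : Set X) := by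
      apply eq_univ_of_forall
      intro x
      obtain ⟨n, rfl⟩ := he x
      exact mem_iUnion.2 ⟨n, rfl⟩
    rw [this]
    exact dense_univ

end Pool.Agent.H94R3.Sequential
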