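import Mathlib

/-!
# Sigma-products of the Cantor cube and D-separability

`SigmaCantor I` is the `Σ`-product of the Cantor cube `{0,1}^I`.  We show that it is Hausdorff,
Fréchet and d-separable for every `I`, and that it is not D-separable when `|I|^ω = |I|`.
-/

set_option autoImplicit false

open Set Topology Cardinal

namespace Pool.Agent.H94R3.Sigma

universe u

/-- `X` is d-separable: it has a dense subset that is a countable union of discrete subsets. -/
def WeaklyDSeparable (X : Type u) [TopologicalSpace X] : Prop :=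
  ∃ E : ℕ → Set X, (∀ n, IsDiscrete (E n)) ∧ Dense (⋃ n, E n)

/-- `X` is D-separable: for every sequence `D n` of dense subsets of `X` there are discrete sets
`F n ⊆ D n` whose union is dense. -/
def SelectivelyDSeparable (X : Type u) [TopologicalSpace X] : Prop :=
  ∀ D : ℕ → Set X, (∀ n, Dense (D n)) →
    ∃ F : ℕ → Set X, (∀ n, F n ⊆ D n ∧ IsDiscrete (F n)) ∧ Dense (⋃ n, F n)

/-- The `Σ`-product of the Cantor cube `{0,1}^I`: the points of the cube with countably many
nonzero coordinates, as a subspace of the cube. -/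
abbrev SigmaCantor (I : Type u) : Type u :=
  {x : I → Bool // {i | x i ≠ false}.Countable}

variable {I : Type u}

/-- The basic open set of all points of the sigma-product that are `true` on `s.1` and `false` on
`s.2`. -/
def box (s : Finset I × Finset I) : Set (SigmaCantor I) :=
  {x | (∀ i ∈ s.1, x.1 i = true) ∧ ∀ i ∈ s.2, x.1 i = false}

theorem isOpen_box (s : Finset I × Finset I) : IsOpen (box s) := by
  have h : box s = (⋂ i ∈ s.1, {x : SigmaCantor I | x.1 i = true}) ∩
      ⋂ i ∈ s.2, {x : SigmaCantor I | x.1 i = false} := by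
    ext x
    simp [box]
  rw [h]
  have hc : ∀ (i : I) (b : Bool), IsOpen {x : SigmaCantor I | x.1 i = b} := by
    intro i b
    have hf : Continuous fun x : SigmaCantor I => x.1 i :=
      (continuous_apply i).comp continuous_subtype_val
    exact (isOpen_discrete ({b} : Set Bool)).preimage hf
  exact (isOpen_biInter_finset fun i _ => hc i true).inter
    (isOpen_biInter_finset fun i _ => hc i false)

theorem exists_box {x : SigmaCantor I} {U : Set (SigmaCantor I)} (hU : IsOpen U) (hx : x ∈ U) :
    ∃ s : Finset I × Finset I, x ∈ box s ∧ box s ⊆ U := by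
  classical
  obtain ⟨V, hV, rfl⟩ := isOpen_induced_iff.1 hU
  obtain ⟨J, u, hu, hJ⟩ := isOpen_pi_iff.1 hV x.1 hx
  refine ⟨(J.filter fun i => x.1 i = true, J.filter fun i => x.1 i = false), ?_, ?_⟩
  · constructor
    · intro i hi
      exact (Finset.mem_filter.1 hi).2
    · intro i hi
      exact (Finset.mem_filter.1 hi).2
  · intro y hy
    apply hJ
    intro i hi
    have hxi := (hu i hi).2
    have : y.1 i = x.1 i := by
      rcases hb : x.1 i with _ | _
      · exact hy.2 i (Finset.mem_filter.2 ⟨hi, hb⟩)
      · exact hy.1 i (Finset.mem_filter.2 ⟨hi, hb⟩)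
    rw [this]
    exact hxi

/-- A pair of disjoint finite sets is a consistent condition. -/
def Con (s : Finset I × Finset I) : Prop := ∀ i ∈ s.1, i ∉ s.2

theorem con_of_mem_box {s : Finset I × Finset I} {x : SigmaCantor I} (hx : x ∈ box s) :
    Con s := by
  intro i h1 h2
  have := hx.1 i h1
  rw [hx.2 i h2] at this
  exact absurd this (by simp)

theorem exists_mem_box {s : Finset I × Finset I} (hs : Con s) : ∃ x, x ∈ box s := by
  classical
  refine ⟨⟨fun i => decide (i ∈ s.1), ?_⟩, ?_, ?_⟩
  · refine s.1.finite_toSet.countable.mono ?_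
    intro i hi
    simpa using hi
  · intro i hi
    simpa using hi
  · intro i hi
    simpa using fun h => hs i h hi

theorem box_nonempty {s : Finset I × Finset I} (hs : Con s) : (box s).Nonempty :=
  exists_mem_box hs

theorem dense_iff {D : Set (SigmaCantor I)} :
    Dense D ↔ ∀ s, Con s → (box s ∩ D).Nonempty := by
  constructor
  · intro hD s hs
    exact hD.inter_open_nonempty _ (isOpen_box s) (box_nonempty hs)
  · intro h
    rw [dense_iff_inter_open]
    rintro U hU ⟨x, hx⟩
    obtain ⟨s, hxs, hsU⟩ := exists_box hU hx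
    obtain ⟨y, hy1, hy2⟩ := h s (con_of_mem_box hxs)
    exact ⟨y, hsU hy1, hy2⟩

/-- The sigma-product of a Cantor cube is d-separable. -/
theorem weaklyDSeparable : WeaklyDSeparable (SigmaCantor I) := by
  classical
  refine ⟨fun n => {x | ∃ p : Finset I, p.card = n ∧ ∀ i, x.1 i = true ↔ i ∈ p}, ?_, ?_⟩
  · intro n
    rw [isDiscrete_iff_forall_mem_exists_isOpen]
    rintro x ⟨p, hp, hxp⟩
    refine ⟨box (p, ∅), isOpen_box _, ?_⟩
    ext y
    constructor
    · rintro ⟨hy, q, hq, hyq⟩
      have hpq : p ⊆ q := fun i hi => (hyq i).1 (hy.1 i hi)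
      have hpq' : p = q := Finset.eq_of_subset_of_card_le hpq (by rw [hp, hq])
      rw [mem_singleton_iff]
      apply Subtype.ext
      funext i
      rw [Bool.eq_iff_iff, hyq, hxp, hpq']
    · rintro rfl
      exact ⟨⟨fun i hi => (hxp i).2 hi, by simp⟩, p, hp, hxp⟩
  · rw [dense_iff]
    intro s hs
    refine ⟨⟨fun i => decide (i ∈ s.1), ?_⟩, ⟨?_, ?_⟩, ?_⟩
    · refine s.1.finite_toSet.countable.mono ?_
      intro i hi
      simpa using hi
    · intro i hi
      simpa using hi
    · intro i hi
      simpa using fun h => hs i h hi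
    · exact mem_iUnion.2 ⟨s.1.card, s.1, rfl, fun i => by simp⟩

/-- The sigma-product of a Cantor cube is a Fréchet space. -/
theorem frechet : FrechetUrysohnSpace (SigmaCantor I) := by
  classical
  constructor
  intro A p hp
  have hpA : ∀ s, p ∈ box s → (box s ∩ A).Nonempty := fun s hs =>
    mem_closure_iff.1 hp _ (isOpen_box s) hs
  have hA : A.Nonempty := by
    obtain ⟨x, -, hx⟩ := hpA (∅, ∅) ⟨by simp, by simp⟩
    exact ⟨x, hx⟩
  -- a point of `A` agreeing with `p` on a given finite set
  have hag : ∀ J : Finset I, ∃ a ∈ A, ∀ i ∈ J, a.1 i = p.1 i := by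
    intro J
    obtain ⟨a, ha, haA⟩ := hpA (J.filter fun i => p.1 i = true, J.filter fun i => p.1 i = false)
      ⟨fun i hi => (Finset.mem_filter.1 hi).2, fun i hi => (Finset.mem_filter.1 hi).2⟩
    refine ⟨a, haA, ?_⟩
    intro i hi
    rcases hb : p.1 i with _ | _
    · exact ha.2 i (Finset.mem_filter.2 ⟨hi, hb⟩)
    · exact ha.1 i (Finset.mem_filter.2 ⟨hi, hb⟩)
  choose g hgA hg using hag
  -- enumerations of the supports
  have hen : ∀ x : SigmaCantor I, ∃ e : ℕ → Finset I,
      Monotone e ∧ ∀ i, x.1 i ≠ false → ∃ n, i ∈ e n := by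
    intro x
    rcases (Set.eq_empty_or_nonempty {i | x.1 i ≠ false}) with h | h
    · refine ⟨fun _ => ∅, fun _ _ _ => le_rfl, ?_⟩
      intro i hi
      have : i ∈ {i | x.1 i ≠ false} := hi
      rw [h] at this
      exact absurd this (by simp)
    · obtain ⟨f, hf⟩ := x.2.exists_eq_range h
      refine ⟨fun n => (Finset.range n).image f, ?_, ?_⟩
      · intro m n hmn
        exact Finset.image_subset_image (Finset.range_subset_range.2 hmn)
      · intro i hi
        have : i ∈ range f := hf ▸ hi
        obtain ⟨k, rfl⟩ := this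
        exact ⟨k + 1, Finset.mem_image.2 ⟨k, by simp, rfl⟩⟩
  choose e he1 he2 using hen
  -- the sequence, together with the finite sets used
  let step : ℕ → List (SigmaCantor I) → Finset I := fun n l =>
    e p n ∪ (l.map fun x => e x n).foldr (· ∪ ·) ∅
  have hstep : ∀ n l, ∀ x ∈ l, e x n ⊆ step n l := by
    intro n l x hx
    have : ∀ l : List (SigmaCantor I), x ∈ l →
        e x n ⊆ (l.map fun x => e x n).foldr (· ∪ ·) ∅ := by
      intro l
      induction l with
      | nil => intro h; simp at h
      | cons a l ih =>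
        intro h
        simp only [List.map_cons, List.foldr_cons]
        rcases List.mem_cons.1 h with rfl | h
        · exact Finset.subset_union_left
        · exact (ih h).trans Finset.subset_union_right
    exact (this l hx).trans Finset.subset_union_right
  let L : ℕ → List (SigmaCantor I) := fun n =>
    Nat.rec [] (fun n l => g (step n l) :: l) n
  have hL : ∀ n, L (n + 1) = g (step n (L n)) :: L n := fun n => rfl
  let a : ℕ → SigmaCantor I := fun n => g (step n (L n))
  have hmem : ∀ m n, m < n → a m ∈ L n := by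
    intro m n hmn
    induction n with
    | zero => omega
    | succ n ih =>
      rw [hL]
      rcases Nat.lt_succ_iff_lt_or_eq.1 hmn with h | rfl
      · exact List.mem_cons_of_mem _ (ih h)
      · exact List.mem_cons_self
  refine ⟨a, fun n => hgA _, ?_⟩
  rw [tendsto_subtype_rng, tendsto_pi_nhds]
  intro i
  apply tendsto_nhds_of_eventually_eq
  rw [Filter.eventually_atTop]
  by_cases hi : (∃ m, (a m).1 i ≠ false) ∨ p.1 i ≠ false
  · obtain ⟨N, hN⟩ : ∃ N, ∀ n ≥ N, i ∈ step n (L n) := by
      rcases hi with ⟨m, hm⟩ | hp'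
      · obtain ⟨k, hk⟩ := he2 (a m) i hm
        refine ⟨max (m + 1) k, fun n hn => ?_⟩
        have h1 : m < n := by omega
        exact hstep n (L n) (a m) (hmem m n h1) (he1 (a m) (by omega) hk)
      · obtain ⟨k, hk⟩ := he2 p i hp'
        exact ⟨k, fun n hn => Finset.mem_union_left _ (he1 p hn hk)⟩
    exact ⟨N, fun n hn => hg _ i (hN n hn)⟩
  · push Not at hi
    exact ⟨0, fun n _ => by rw [hi.1 n, hi.2]⟩

end Pool.Agent.H94R3.Sigma
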