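import Pool.Agent.H94R3.Sigma

/-!
# Sigma-products of Cantor cubes that are not D-separable
-/

set_option autoImplicit false

open Set Topology Cardinal

namespace Pool.Agent.H94R3.Sigma

universe u

variable {I : Type u}

/-- Every countable set is contained in a countable set closed under a countable-valued operation on
pairs of finite sets. -/
theorem exists_countable_closed (h : Finset I × Finset I → Set I) (hh : ∀ s, (h s).Countable)
    (S0 : Set I) (h0 : S0.Countable) :
    ∃ S : Set I, S.Countable ∧ S0 ⊆ S ∧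
      ∀ s : Finset I × Finset I, (s.1 : Set I) ⊆ S → (s.2 : Set I) ⊆ S → h s ⊆ S := by
  classical
  have hfin : ∀ S : Set I, S.Countable → {s : Finset I | (s : Set I) ⊆ S}.Countable := by
    intro S hS
    have := hS.to_subtype
    refine (countable_range fun t : Finset S => t.map (Function.Embedding.subtype _)).mono ?_
    intro s hs
    refine ⟨s.subtype (· ∈ S), ?_⟩
    ext i
    simp only [Finset.mem_map, Finset.mem_subtype, Function.Embedding.coe_subtype]
    constructor
    · rintro ⟨j, hj, rfl⟩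
      exact hj
    · intro hi
      exact ⟨⟨i, hs hi⟩, hi, rfl⟩
  let F : Set I → Set I := fun S =>
    S ∪ ⋃ s ∈ {s : Finset I | (s : Set I) ⊆ S} ×ˢ {s : Finset I | (s : Set I) ⊆ S}, h s
  have hF : ∀ S : Set I, S.Countable → (F S).Countable := fun S hS =>
    hS.union (((hfin S hS).prod (hfin S hS)).biUnion fun s _ => hh s)
  let T : ℕ → Set I := fun n => F^[n] S0
  have hT : ∀ n, T (n + 1) = F (T n) := fun n => Function.iterate_succ_apply' F n S0
  have hTc : ∀ n, (T n).Countable := by
    intro n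
    induction n with
    | zero => exact h0
    | succ n ih => rw [hT]; exact hF _ ih
  have hmono : Monotone T := monotone_nat_of_le_succ fun n => by
    rw [hT]; exact subset_union_left
  have hcov : ∀ s : Finset I, (s : Set I) ⊆ ⋃ n, T n → ∃ n, (s : Set I) ⊆ T n := by
    intro s hs
    induction s using Finset.induction_on with
    | empty => exact ⟨0, by simp⟩
    | insert a s ha ih =>
      rw [Finset.coe_insert, insert_subset_iff] at hs
      obtain ⟨n, hn⟩ := ih hs.2
      obtain ⟨m, hm⟩ := mem_iUnion.1 hs.1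
      refine ⟨max m n, ?_⟩
      rw [Finset.coe_insert, insert_subset_iff]
      exact ⟨hmono (le_max_left _ _) hm, hn.trans (hmono (le_max_right _ _))⟩
  refine ⟨⋃ n, T n, countable_iUnion hTc, subset_iUnion T 0, ?_⟩
  intro s hs1 hs2
  obtain ⟨m, hm⟩ := hcov _ hs1
  obtain ⟨n, hn⟩ := hcov _ hs2
  refine subset_trans ?_ (subset_iUnion T (max m n + 1))
  rw [hT]
  refine subset_trans ?_ subset_union_right
  exact subset_biUnion_of_mem (u := h) (show s ∈ _ ×ˢ _ from
    ⟨hm.trans (hmono (le_max_left _ _)), hn.trans (hmono (le_max_right _ _))⟩)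

/-- The union of two conditions. -/
noncomputable def un (s t : Finset I × Finset I) : Finset I × Finset I := by
  classical
  exact (s.1 ∪ t.1, s.2 ∪ t.2)

theorem box_un (s t : Finset I × Finset I) : box (un s t) = box s ∩ box t := by
  classical
  ext x
  simp only [box, un, Finset.mem_union, mem_inter_iff, mem_ofPred_eq]
  constructor
  · rintro ⟨h1, h2⟩
    exact ⟨⟨fun i hi => h1 i (Or.inl hi), fun i hi => h2 i (Or.inl hi)⟩,
      fun i hi => h1 i (Or.inr hi), fun i hi => h2 i (Or.inr hi)⟩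
  · rintro ⟨⟨h1, h2⟩, h3, h4⟩
    exact ⟨fun i hi => hi.elim (h1 i) (h3 i), fun i hi => hi.elim (h2 i) (h4 i)⟩

/-- A set of conditions is predense if every condition is compatible with one of its members. -/
def Predense (E : Set (Finset I × Finset I)) : Prop :=
  ∀ s, Con s → ∃ e ∈ E, Con (un s e)

/-- The set of points of the sigma-product that are generic for all the predense sets coded by the
elements of their support. -/
def Gen (r : I → ℕ → ℕ → Finset I × Finset I) : Set (SigmaCantor I) :=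
  {x | ∀ i, x.1 i = true → ∀ k, Predense (range (r i k)) → ∃ n, x ∈ box (r i k n)}

theorem dense_gen [Nonempty I] (r : I → ℕ → ℕ → Finset I × Finset I) : Dense (Gen r) := by
  classical
  rw [dense_iff]
  intro s0 hs0
  obtain ⟨i0⟩ := ‹Nonempty I›
  obtain ⟨S, hS, hS0, hSc⟩ := exists_countable_closed
    (fun s => ⋃ i ∈ s.1, ⋃ k, ⋃ n, ((r i k n).1 : Set I))
    (fun s => s.1.countable_toSet.biUnion fun i _ => countable_iUnion fun k =>
      countable_iUnion fun n => (r i k n).1.countable_toSet)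
    (insert i0 (s0.1 : Set I)) ((s0.1.countable_toSet).insert i0)
  have hSr : ∀ i ∈ S, ∀ k n, ((r i k n).1 : Set I) ⊆ S := by
    intro i hi k n
    refine subset_trans ?_ (hSc ({i}, ∅) (by simpa using hi) (by simp))
    intro j hj
    simp only [mem_iUnion]
    exact ⟨i, by simp, k, n, hj⟩
  have hSne : S.Nonempty := ⟨i0, hS0 (mem_insert _ _)⟩
  have := hS.to_subtype
  have := hSne.to_subtype
  obtain ⟨e, he⟩ := exists_surjective_nat (S × ℕ)
  have hstep : ∀ (n : ℕ) (s : {s : Finset I × Finset I // Con s ∧ (s.1 : Set I) ⊆ S}),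
      ∃ t : {s : Finset I × Finset I // Con s ∧ (s.1 : Set I) ⊆ S},
        s.1.1 ⊆ t.1.1 ∧ s.1.2 ⊆ t.1.2 ∧
        (Predense (range (r (e n).1 (e n).2)) →
          ∃ m, (r (e n).1 (e n).2 m).1 ⊆ t.1.1 ∧ (r (e n).1 (e n).2 m).2 ⊆ t.1.2) := by
    rintro n ⟨s, hs, hsS⟩
    by_cases hp : Predense (range (r (e n).1 (e n).2))
    · obtain ⟨_, ⟨m, rfl⟩, hm⟩ := hp s hs
      refine ⟨⟨un s (r (e n).1 (e n).2 m), hm, ?_⟩, ?_, ?_, fun _ => ⟨m, ?_, ?_⟩⟩
      · simp only [un, Finset.coe_union, union_subset_iff]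
        exact ⟨hsS, hSr _ (e n).1.2 _ _⟩
      · exact Finset.subset_union_left
      · exact Finset.subset_union_left
      · exact Finset.subset_union_right
      · exact Finset.subset_union_right
    · exact ⟨⟨s, hs, hsS⟩, subset_rfl, subset_rfl, fun h => absurd h hp⟩
  choose f hf1 hf2 hf3 using hstep
  let q : ℕ → {s : Finset I × Finset I // Con s ∧ (s.1 : Set I) ⊆ S} := fun n =>
    Nat.rec ⟨s0, hs0, fun i hi => hS0 (mem_insert_of_mem _ hi)⟩ (fun n s => f n s) n
  have hq : ∀ n, q (n + 1) = f n (q n) := fun n => rfl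
  have hq1 : Monotone fun n => (q n).1.1 := monotone_nat_of_le_succ fun n => by
    rw [hq]; exact hf1 n (q n)
  have hq2 : Monotone fun n => (q n).1.2 := monotone_nat_of_le_succ fun n => by
    rw [hq]; exact hf2 n (q n)
  have hcnt : {i | (fun i => decide (∃ n, i ∈ (q n).1.1)) i ≠ false}.Countable := by
    refine hS.mono ?_
    intro i hi
    have : ∃ n, i ∈ (q n).1.1 := by simpa using hi
    obtain ⟨n, hn⟩ := this
    exact (q n).2.2 hn
  let x : SigmaCantor I := ⟨fun i => decide (∃ n, i ∈ (q n).1.1), hcnt⟩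
  have hxt : ∀ i, x.1 i = true ↔ ∃ n, i ∈ (q n).1.1 := fun i => by simp [x]
  have hxbox : ∀ n, x ∈ box (q n).1 := by
    intro n
    refine ⟨fun i hi => (hxt i).2 ⟨n, hi⟩, fun i hi => ?_⟩
    by_contra hne
    obtain ⟨m, hm⟩ := (hxt i).1 (by simpa using hne)
    exact (q (max m n)).2.1 i (hq1 (le_max_left m n) hm) (hq2 (le_max_right m n) hi)
  refine ⟨x, hxbox 0, ?_⟩
  intro i hi k hk
  obtain ⟨n, hn⟩ := (hxt i).1 hi
  have hiS : i ∈ S := (q n).2.2 hn
  obtain ⟨m, hm⟩ := he (⟨i, hiS⟩, k)
  have h3 := hf3 m (q m)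
  rw [hm] at h3
  obtain ⟨l, hl1, hl2⟩ := h3 hk
  refine ⟨l, ?_⟩
  have hx := hxbox (m + 1)
  rw [hq] at hx
  exact ⟨fun j hj => hx.1 j (hl1 hj), fun j hj => hx.2 j (hl2 hj)⟩

/-- If `|I|^ω = |I|` then the sigma-product `Σ(2^I)` has a dense subset no dense subset of which is a
countable union of discrete sets. -/
theorem exists_dense [Infinite I] (hI : #I ^ ℵ₀ = #I) :
    ∃ D : Set (SigmaCantor I), Dense D ∧ ∀ F : ℕ → Set (SigmaCantor I),
      (∀ n, F n ⊆ D ∧ IsDiscrete (F n)) → ¬ Dense (⋃ n, F n) := by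
  classical
  have hcard : #(ℕ → ℕ → Finset I × Finset I) ≤ #I := by
    have h1 : #(Finset I × Finset I) = #I := by
      rw [Cardinal.mk_prod, Cardinal.lift_id, Cardinal.mk_finset_of_infinite,
        Cardinal.mul_eq_self (Cardinal.aleph0_le_mk I)]
    have h2 : #(ℕ → Finset I × Finset I) = #I := by
      rw [Cardinal.mk_arrow, h1]
      simpa using hI
    rw [Cardinal.mk_arrow, h2]
    simpa using hI.le
  obtain ⟨j⟩ := hcard
  have hsurj := Function.invFun_surjective j.injective
  set r : I → ℕ → ℕ → Finset I × Finset I := Function.invFun j with hr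
  refine ⟨Gen r, dense_gen r, ?_⟩
  intro F hF hdense
  -- avoiding the discrete sets
  have hav : ∀ (n : ℕ) (s : Finset I × Finset I), ∃ t : Finset I × Finset I,
      Con s → Con t ∧ s.1 ⊆ t.1 ∧ s.2 ⊆ t.2 ∧ box t ∩ F n = ∅ := by
    intro n s
    by_cases hs : Con s
    swap
    · exact ⟨s, fun h => absurd h hs⟩
    rcases (box s ∩ F n).eq_empty_or_nonempty with h | ⟨x, hxs, hxF⟩
    · exact ⟨s, fun _ => ⟨hs, subset_rfl, subset_rfl, h⟩⟩
    obtain ⟨U, hU, hUx⟩ := (isDiscrete_iff_forall_mem_exists_isOpen.1 (hF n).2) x hxF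
    have hxU : x ∈ U := (hUx.symm ▸ mem_singleton x : x ∈ U ∩ F n).1
    obtain ⟨u, hxu, huU⟩ := exists_box hU hxU
    obtain ⟨i, hi⟩ := Infinite.exists_notMem_finset ((un s u).1 ∪ (un s u).2)
    have hi1 : i ∉ (un s u).1 := fun h => hi (Finset.mem_union_left _ h)
    have hi2 : i ∉ (un s u).2 := fun h => hi (Finset.mem_union_right _ h)
    have hxsu : x ∈ box (un s u) := by rw [box_un]; exact ⟨hxs, hxu⟩
    have hcon : Con (un s u) := con_of_mem_box hxsu
    have hkill : ∀ y ∈ box (un s u), y ∈ F n → y = x := by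
      intro y hy hyF
      rw [box_un] at hy
      have : y ∈ U ∩ F n := ⟨huU hy.2, hyF⟩
      rw [hUx] at this
      exact this
    rcases hb : x.1 i with _ | _
    · refine ⟨(insert i (un s u).1, (un s u).2), fun _ => ⟨?_, ?_, ?_, ?_⟩⟩
      · intro k hk
        rcases Finset.mem_insert.1 hk with rfl | hk
        · exact hi2
        · exact hcon k hk
      · exact Finset.subset_union_left.trans (Finset.subset_insert _ _)
      · exact Finset.subset_union_left
      · rw [eq_empty_iff_forall_notMem]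
        rintro y ⟨hy, hyF⟩
        have h1 : y ∈ box (un s u) :=
          ⟨fun k hk => hy.1 k (Finset.mem_insert_of_mem hk), hy.2⟩
        have h2 := hkill y h1 hyF
        have h3 := hy.1 i (Finset.mem_insert_self _ _)
        rw [h2, hb] at h3
        exact absurd h3 (by simp)
    · refine ⟨((un s u).1, insert i (un s u).2), fun _ => ⟨?_, ?_, ?_, ?_⟩⟩
      · intro k hk hk'
        rcases Finset.mem_insert.1 hk' with rfl | hk'
        · exact hi1 hk
        · exact hcon k hk hk'
      · exact Finset.subset_union_left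
      · exact Finset.subset_union_left.trans (Finset.subset_insert _ _)
      · rw [eq_empty_iff_forall_notMem]
        rintro y ⟨hy, hyF⟩
        have h1 : y ∈ box (un s u) :=
          ⟨hy.1, fun k hk => hy.2 k (Finset.mem_insert_of_mem hk)⟩
        have h2 := hkill y h1 hyF
        have h3 := hy.2 i (Finset.mem_insert_self _ _)
        rw [h2, hb] at h3
        exact absurd h3 (by simp)
  choose g hg using hav
  obtain ⟨S, hS, -, hSc⟩ := exists_countable_closed
    (fun s => ⋃ n, (((g n s).1 : Set I) ∪ ((g n s).2 : Set I)))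
    (fun s => countable_iUnion fun n => (g n s).1.countable_toSet.union (g n s).2.countable_toSet)
    ∅ countable_empty
  -- the countable predense sets
  let E : ℕ → Set (Finset I × Finset I) := fun n =>
    (fun s => g n s) '' {s | Con s ∧ (s.1 : Set I) ⊆ S ∧ (s.2 : Set I) ⊆ S}
  have hEc : ∀ n, (E n).Countable := by
    intro n
    have := hS.to_subtype
    have hfin : {s : Finset I | (s : Set I) ⊆ S}.Countable := by
      refine (countable_range fun t : Finset S => t.map (Function.Embedding.subtype _)).mono ?_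
      intro s hs
      refine ⟨s.subtype (· ∈ S), ?_⟩
      ext i
      simp only [Finset.mem_map, Finset.mem_subtype, Function.Embedding.coe_subtype]
      constructor
      · rintro ⟨j, hj, rfl⟩
        exact hj
      · intro hi
        exact ⟨⟨i, hs hi⟩, hi, rfl⟩
    refine Countable.image ((hfin.prod hfin).mono ?_) _
    intro s hs
    exact ⟨hs.2.1, hs.2.2⟩
  have hEne : ∀ n, (E n).Nonempty := fun n =>
    ⟨g n (∅, ∅), (∅, ∅), ⟨by intro i hi; simp at hi, by simp, by simp⟩, rfl⟩
  choose G hG using fun n => (hEc n).exists_eq_range (hEne n)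
  obtain ⟨i, hi⟩ := hsurj G
  have hpre : ∀ n, Predense (range (r i n)) := by
    intro n s hs
    rw [hi, ← hG n]
    let s' : Finset I × Finset I := (s.1.filter (· ∈ S), s.2.filter (· ∈ S))
    have hs' : Con s' := fun k hk hk' => hs k (Finset.mem_filter.1 hk).1 (Finset.mem_filter.1 hk').1
    have h1 : (s'.1 : Set I) ⊆ S := fun k hk => (Finset.mem_filter.1 hk).2
    have h2 : (s'.2 : Set I) ⊆ S := fun k hk => (Finset.mem_filter.1 hk).2
    refine ⟨g n s', ⟨s', ⟨hs', h1, h2⟩, rfl⟩, ?_⟩
    obtain ⟨hc, hc1, hc2, -⟩ := hg n s' hs'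
    have hsub := hSc s' h1 h2
    have hsub1 : ((g n s').1 : Set I) ⊆ S := fun k hk =>
      hsub (mem_iUnion.2 ⟨n, Or.inl hk⟩)
    have hsub2 : ((g n s').2 : Set I) ⊆ S := fun k hk =>
      hsub (mem_iUnion.2 ⟨n, Or.inr hk⟩)
    intro k hk hk'
    simp only [un, Finset.mem_union] at hk hk'
    rcases hk with hk | hk <;> rcases hk' with hk' | hk'
    · exact hs k hk hk'
    · exact hc k (hc1 (Finset.mem_filter.2 ⟨hk, hsub2 hk'⟩)) hk'
    · exact hc k hk (hc2 (Finset.mem_filter.2 ⟨hk', hsub1 hk⟩))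
    · exact hc k hk hk'
  -- conclusion
  obtain ⟨x, hx, hxF⟩ := dense_iff.1 hdense ({i}, ∅) (by intro k _; simp)
  obtain ⟨n, hn⟩ := mem_iUnion.1 hxF
  have hxi : x.1 i = true := hx.1 i (by simp)
  obtain ⟨m, hm⟩ := (hF n).1 hn i hxi n (hpre n)
  have hmE : r i n m ∈ E n := by
    rw [hG n, hi]
    exact ⟨m, rfl⟩
  obtain ⟨s, hs, hsm⟩ := hmE
  have h4 := (hg n s hs.1).2.2.2
  simp only at hsm
  rw [hsm] at h4
  have : x ∈ box (r i n m) ∩ F n := ⟨hm, hn⟩
  rw [h4] at this
  exact this

theorem not_selectivelyDSeparable [Infinite I] (hI : #I ^ ℵ₀ = #I) :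
    ¬ SelectivelyDSeparable (SigmaCantor I) := by
  obtain ⟨D, hD, h⟩ := exists_dense hI
  intro hsel
  obtain ⟨F, hF, hF'⟩ := hsel (fun _ => D) (fun _ => hD)
  exact h F hF hF'

end Pool.Agent.H94R3.Sigma
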