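import Pool.Agent.H94R3.SigmaNeg

/-!
# Sigma-products of Cantor cubes that are D-separable
-/

set_option autoImplicit false

open Set Topology Cardinal

namespace Pool.Agent.H94R3.Sigma

universe u

/-- `H` is free for the set mapping `A`. -/
def Free {α : Type u} (A : α → Set α) (H : Set α) : Prop :=
  ∀ a ∈ H, ∀ b ∈ H, a ≠ b → b ∉ A a

/-- A maximal free subset of a set. -/
theorem exists_maximal_free {α : Type u} (A : α → Set α) (B : Set α) :
    ∃ H ⊆ B, Free A H ∧ ∀ x ∈ B, Free A (insert x H) → x ∈ H := by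
  obtain ⟨H, hH⟩ := zorn_subset {H : Set α | H ⊆ B ∧ Free A H} (by
    intro c hc hchain
    refine ⟨⋃₀ c, ⟨sUnion_subset fun s hs => (hc hs).1, ?_⟩, fun s hs => subset_sUnion_of_mem hs⟩
    rintro a ⟨s, hs, has⟩ b ⟨t, ht, hbt⟩ hab
    rcases hchain.total hs ht with h | h
    · exact (hc ht).2 a (h has) b hbt hab
    · exact (hc hs).2 a has b (h hbt) hab)
  refine ⟨H, hH.prop.1, hH.prop.2, ?_⟩
  intro x hx hfree
  have := hH.eq_of_subset (t := insert x H) ⟨insert_subset hx hH.prop.1, hfree⟩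
    (subset_insert _ _)
  rw [this]
  exact mem_insert _ _

/-- A set mapping with values of size at most `μ` on a set of size at least `μ⁺⁺` has a free set of
size at least `μ`. -/
theorem exists_free {α : Type u} {μ : Cardinal.{u}} (hμ : ℵ₀ ≤ μ) (A : α → Set α)
    (hA : ∀ a, #(A a) ≤ μ) (hα : Order.succ (Order.succ μ) ≤ #α) :
    ∃ H : Set α, Free A H ∧ μ ≤ #H := by
  classical
  by_contra hcon
  push Not at hcon
  let W : Type u := (Order.succ μ).ord.ToType
  have hW : #W = Order.succ μ := by simp [W]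
  choose M hM1 hM2 hM3 using exists_maximal_free A
  have wf : WellFounded ((· < ·) : W → W → Prop) := wellFounded_lt
  let H : W → Set α := wf.fix fun ξ rec => M (⋃ η, ⋃ h : η < ξ, rec η h)ᶜ
  have hH : ∀ ξ, H ξ = M (⋃ η, ⋃ _ : η < ξ, H η)ᶜ := fun ξ => wf.fix_eq _ ξ
  have hfree : ∀ ξ, Free A (H ξ) := fun ξ => by rw [hH]; exact hM2 _
  have hsmall : ∀ ξ, #(H ξ) ≤ μ := fun ξ => (hcon _ (hfree ξ)).le
  have hdisj : ∀ ξ η, η < ξ → Disjoint (H ξ) (H η) := by
    intro ξ η h
    have h1 : H ξ ⊆ (⋃ η, ⋃ _ : η < ξ, H η)ᶜ := by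
      conv_lhs => rw [hH]
      exact hM1 _
    rw [Set.disjoint_left]
    intro x hx hx'
    exact h1 hx (mem_iUnion₂.2 ⟨η, h, hx'⟩)
  have hsμ : ℵ₀ ≤ Order.succ μ := hμ.trans (Order.le_succ μ)
  have hU : #(⋃ ξ, H ξ : Set α) ≤ Order.succ μ := by
    refine (Cardinal.mk_iUnion_le _).trans ?_
    rw [hW]
    refine (mul_le_mul_right (ciSup_le' fun ξ => (hsmall ξ).trans (Order.le_succ μ)) _).trans ?_
    rw [Cardinal.mul_eq_self hsμ]
  have hV : #(⋃ x ∈ (⋃ ξ, H ξ), A x : Set α) ≤ Order.succ μ := by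
    refine (Cardinal.mk_biUnion_le _ _).trans ?_
    refine (mul_le_mul' hU (ciSup_le' fun x : (⋃ ξ, H ξ : Set α) =>
      (hA x.1).trans (Order.le_succ μ))).trans ?_
    rw [Cardinal.mul_eq_self hsμ]
  obtain ⟨x, hx⟩ : ∃ x, x ∉ (⋃ ξ, H ξ) ∪ (⋃ x ∈ (⋃ ξ, H ξ), A x) := by
    by_contra hall
    push Not at hall
    have h1 : #α ≤ Order.succ μ := by
      rw [← Cardinal.mk_univ, ← eq_univ_of_forall hall]
      refine (Cardinal.mk_union_le _ _).trans ?_
      exact (add_le_add hU hV).trans (Cardinal.add_eq_self hsμ).le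
    exact absurd (hα.trans h1) (not_le.2 (Order.lt_succ _))
  rw [mem_union, not_or] at hx
  obtain ⟨hx1, hx2⟩ := hx
  have key : ∀ ξ, ∃ y, y ∈ H ξ ∧ y ∈ A x := by
    intro ξ
    by_contra hno
    push Not at hno
    apply hx1
    have h1 : x ∈ (⋃ η, ⋃ _ : η < ξ, H η)ᶜ := by
      intro h
      obtain ⟨η, -, h⟩ := mem_iUnion₂.1 h
      exact hx1 (mem_iUnion.2 ⟨η, h⟩)
    refine mem_iUnion.2 ⟨ξ, ?_⟩
    rw [hH]
    refine hM3 _ x h1 ?_
    rw [← hH]
    rintro a (rfl | ha) b (rfl | hb) hab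
    · exact absurd rfl hab
    · exact hno b hb
    · intro h
      exact hx2 (mem_iUnion₂.2 ⟨a, mem_iUnion.2 ⟨ξ, ha⟩, h⟩)
    · exact hfree ξ a ha b hb hab
  choose y hy1 hy2 using key
  have hinj : Function.Injective fun ξ => (⟨y ξ, hy2 ξ⟩ : A x) := by
    intro ξ η h
    have h' : y ξ = y η := congrArg Subtype.val h
    rcases lt_trichotomy ξ η with hlt | heq | hgt
    · exact ((Set.disjoint_left.1 (hdisj η ξ hlt)) (hy1 η) (h' ▸ hy1 ξ)).elim
    · exact heq
    · exact ((Set.disjoint_left.1 (hdisj ξ η hgt)) (hy1 ξ) (h' ▸ hy1 η)).elim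
  have h1 := Cardinal.mk_le_of_injective hinj
  rw [hW] at h1
  exact absurd (h1.trans (hA x)) (not_le.2 (Order.lt_succ _))

variable {I : Type u}

/-- If `J` is a subset of `I` with `|J|⁺⁺ ≤ |I|` then every dense subset of `Σ(2^I)` has a discrete
subset which meets every box determined by the coordinates in `J`. -/
theorem exists_discrete {D : Set (SigmaCantor I)} (hD : Dense D) {μ : Cardinal.{u}} (hμ : ℵ₀ ≤ μ)
    (J : Set I) (hJ : #J ≤ μ) (hI : Order.succ (Order.succ μ) ≤ #I) :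
    ∃ F ⊆ D, IsDiscrete F ∧ ∀ s : Finset I × Finset I, Con s → (s.1 : Set I) ⊆ J →
      (s.2 : Set I) ⊆ J → (box s ∩ F).Nonempty := by
  classical
  -- the set of conditions
  let C : Type u := {s : Finset I × Finset I // Con s ∧ (s.1 : Set I) ⊆ J ∧ (s.2 : Set I) ⊆ J}
  have hC : #C ≤ μ := by
    let f : Finset J × Finset J → Finset I × Finset I := fun t =>
      (t.1.map (Function.Embedding.subtype _), t.2.map (Function.Embedding.subtype _))
    have h1 : ∀ s : C, ∃ t, f t = s.1 := by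
      rintro ⟨s, hs, h1, h2⟩
      refine ⟨(s.1.subtype (· ∈ J), s.2.subtype (· ∈ J)), ?_⟩
      apply Prod.ext
      · ext i
        simp only [f, Finset.mem_map, Finset.mem_subtype, Function.Embedding.coe_subtype]
        constructor
        · rintro ⟨j, hj, rfl⟩
          exact hj
        · intro hi
          exact ⟨⟨i, h1 hi⟩, hi, rfl⟩
      · ext i
        simp only [f, Finset.mem_map, Finset.mem_subtype, Function.Embedding.coe_subtype]
        constructor
        · rintro ⟨j, hj, rfl⟩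
          exact hj
        · intro hi
          exact ⟨⟨i, h2 hi⟩, hi, rfl⟩
    choose t ht using h1
    have hinj : Function.Injective t := by
      intro a b h
      apply Subtype.ext
      rw [← ht a, ← ht b, h]
    refine (Cardinal.mk_le_of_injective hinj).trans ?_
    have hfin : #(Finset J) ≤ μ := by
      rcases finite_or_infinite J with h | h
      · exact (Cardinal.lt_aleph0_of_finite _).le.trans hμ
      · rw [Cardinal.mk_finset_of_infinite]
        exact hJ
    rw [Cardinal.mk_prod, Cardinal.lift_id]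
    exact (mul_le_mul' hfin hfin).trans (Cardinal.mul_eq_self hμ).le
  -- the candidates
  have hz : ∀ (r : {r : I // r ∉ J}) (s : C), ∃ z ∈ D, z ∈ box s.1 ∧ z.1 r.1 = true := by
    rintro ⟨r, hr⟩ ⟨s, hs, h1, h2⟩
    obtain ⟨z, hz, hzD⟩ := dense_iff.1 hD (insert r s.1, s.2) (by
      intro i hi hi'
      rcases Finset.mem_insert.1 hi with rfl | hi
      · exact hr (h2 hi')
      · exact hs i hi hi')
    exact ⟨z, hzD, ⟨fun i hi => hz.1 i (Finset.mem_insert_of_mem hi), hz.2⟩,
      hz.1 r (Finset.mem_insert_self _ _)⟩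
  choose z hzD hzb hzr using hz
  let A : {r : I // r ∉ J} → Set {r : I // r ∉ J} := fun r => {r' | ∃ s : C, (z r s).1 r'.1 ≠ false}
  have hA : ∀ r, #(A r) ≤ μ := by
    intro r
    have h1 : A r = ⋃ s : C, {r' | (z r s).1 r'.1 ≠ false} := by
      ext r'
      simp [A]
    rw [h1]
    refine (Cardinal.mk_iUnion_le _).trans ?_
    refine (mul_le_mul' hC (ciSup_le' fun s => ?_)).trans (Cardinal.mul_eq_self hμ).le
    refine le_trans ?_ hμ
    rw [Cardinal.le_aleph0_iff_set_countable]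
    exact (z r s).2.preimage Subtype.val_injective
  have hcomp : Order.succ (Order.succ μ) ≤ #{r : I // r ∉ J} := by
    have h1 : #{r : I // r ∉ J} = #(Jᶜ : Set I) := rfl
    rw [h1]
    by_contra hlt
    rw [not_le] at hlt
    have h2 : #I ≤ Order.succ μ := by
      rw [← Cardinal.mk_sum_compl J]
      have h3 := Order.le_of_lt_succ hlt
      exact (add_le_add (hJ.trans (Order.le_succ μ)) h3).trans
        (Cardinal.add_eq_self (hμ.trans (Order.le_succ μ))).le
    exact absurd (hI.trans h2) (not_le.2 (Order.lt_succ _))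
  obtain ⟨H, hH, hHμ⟩ := exists_free hμ A hA hcomp
  obtain ⟨φ⟩ := hC.trans hHμ
  refine ⟨range fun s : C => z (φ s).1 s, ?_, ?_, ?_⟩
  · rintro _ ⟨s, rfl⟩
    exact hzD _ _
  · rw [isDiscrete_iff_forall_mem_exists_isOpen]
    rintro _ ⟨s, rfl⟩
    refine ⟨box ({(φ s).1.1}, ∅), isOpen_box _, ?_⟩
    ext x
    constructor
    · rintro ⟨hx, t, rfl⟩
      by_cases hst : s = t
      · rw [hst]
        exact mem_singleton _
      · have h1 : (z (φ t).1 t).1 (φ s).1.1 = true := hx.1 _ (by simp)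
        have h2 : (φ s).1 ∈ A (φ t).1 := ⟨t, by rw [h1]; simp⟩
        have h3 : (φ t).1 ≠ (φ s).1 := by
          intro h
          exact hst (φ.injective (Subtype.ext h)).symm
        exact absurd h2 (hH _ (φ t).2 _ (φ s).2 h3)
    · rintro rfl
      refine ⟨⟨?_, by simp⟩, ⟨s, rfl⟩⟩
      intro i hi
      rw [Finset.mem_singleton.1 hi]
      exact hzr _ _
  · intro s hs h1 h2
    exact ⟨z (φ ⟨s, hs, h1, h2⟩).1 ⟨s, hs, h1, h2⟩, hzb _ ⟨s, hs, h1, h2⟩, ⟨_, rfl⟩⟩

/-- `Σ(2^I)` is D-separable when `I` is countable. -/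
theorem selectivelyDSeparable_of_countable [Countable I] :
    SelectivelyDSeparable (SigmaCantor I) := by
  classical
  intro D hD
  have : Nonempty (Finset I × Finset I) := ⟨(∅, ∅)⟩
  obtain ⟨e, he⟩ := exists_surjective_nat (Finset I × Finset I)
  have hch : ∀ n, ∃ F ⊆ D n, IsDiscrete F ∧ (Con (e n) → (box (e n) ∩ F).Nonempty) := by
    intro n
    by_cases h : Con (e n)
    · obtain ⟨z, hz, hzD⟩ := dense_iff.1 (hD n) (e n) h
      refine ⟨{z}, singleton_subset_iff.2 hzD, Set.subsingleton_singleton.isDiscrete, fun _ =>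
        ⟨z, hz, rfl⟩⟩
    · exact ⟨∅, empty_subset _, Set.subsingleton_empty.isDiscrete, fun h' => absurd h' h⟩
  choose F hF1 hF2 hF3 using hch
  refine ⟨F, fun n => ⟨hF1 n, hF2 n⟩, dense_iff.2 ?_⟩
  intro s hs
  obtain ⟨n, rfl⟩ := he s
  obtain ⟨z, hz, hzF⟩ := hF3 n hs
  exact ⟨z, hz, mem_iUnion.2 ⟨n, hzF⟩⟩

/-- `Σ(2^I)` is D-separable when the cofinality of `|I|` is countable. -/
theorem selectivelyDSeparable [Infinite I] (hI : (#I).ord.cof = ℵ₀) :
    SelectivelyDSeparable (SigmaCantor I) := by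
  classical
  rcases (Cardinal.aleph0_le_mk I).eq_or_lt with hc | hc
  · have : Countable I := by
      rw [← Cardinal.mk_le_aleph0_iff, ← hc]
    exact selectivelyDSeparable_of_countable
  -- `#I` is a limit cardinal
  have hlim : ∀ μ < #I, Order.succ μ < #I := by
    intro μ hμ
    refine lt_of_le_of_ne (Order.succ_le_of_lt hμ) ?_
    intro h
    have h1 : ℵ₀ ≤ μ := by
      have : ℵ₀ < Order.succ μ := h ▸ hc
      exact Order.le_of_lt_succ this
    have h2 := (Cardinal.isRegular_succ h1).cof_ord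
    rw [h, hI] at h2
    exact absurd h2 hc.ne
  obtain ⟨lo, wf, hr⟩ := Cardinal.exists_ord_eq_type_lt I
  have hcof : Order.cof I = ℵ₀ := by
    rw [← hI, hr, Ordinal.cof_type]
  obtain ⟨S, hS, hSc⟩ := Order.exists_cof_eq I
  rw [hcof] at hSc
  have hSct : S.Countable := by
    rw [← Cardinal.le_aleph0_iff_set_countable, hSc]
  have hSne : S.Nonempty := by
    rw [← Set.nonempty_coe_sort, ← Cardinal.mk_ne_zero_iff, hSc]
    exact Cardinal.aleph0_ne_zero
  obtain ⟨a, ha⟩ := hSct.exists_eq_range hSne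
  intro D hD
  let J : ℕ → Set I := fun n => ⋃ m ∈ Finset.range n, Iic (a m)
  have hJlt : ∀ n, #(J n) < #I := by
    intro n
    have h1 : ∀ x : I, #(Iic x) < #I := by
      intro x
      have h2 : #(Iio x) < #I := Cardinal.mk_Iio_lt x hr
      have h3 : #(Iic x) ≤ #(Iio x) + 1 := by
        rw [← Iio_union_right]
        refine (Cardinal.mk_union_le _ _).trans ?_
        simp
      exact h3.trans_lt (Cardinal.add_lt_of_lt (Cardinal.aleph0_le_mk I) h2
        ((Cardinal.one_lt_aleph0).trans hc))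
    induction n with
    | zero =>
      have : J 0 = ∅ := by simp [J]
      rw [this, Cardinal.mk_eq_zero]
      exact lt_of_lt_of_le Cardinal.aleph0_pos (Cardinal.aleph0_le_mk I)
    | succ n ih =>
      have : J (n + 1) = J n ∪ Iic (a n) := by
        ext x
        simp only [J, Finset.mem_range, mem_iUnion, mem_union, exists_prop]
        constructor
        · rintro ⟨m, hm, hx⟩
          rcases Nat.lt_succ_iff_lt_or_eq.1 hm with h | rfl
          · exact Or.inl ⟨m, h, hx⟩
          · exact Or.inr hx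
        · rintro (⟨m, hm, hx⟩ | hx)
          · exact ⟨m, by omega, hx⟩
          · exact ⟨n, by omega, hx⟩
      rw [this]
      exact (Cardinal.mk_union_le _ _).trans_lt
        (Cardinal.add_lt_of_lt (Cardinal.aleph0_le_mk I) ih (h1 _))
  have hch : ∀ n, ∃ F ⊆ D n, IsDiscrete F ∧ ∀ s : Finset I × Finset I, Con s →
      (s.1 : Set I) ⊆ J n → (s.2 : Set I) ⊆ J n → (box s ∩ F).Nonempty := by
    intro n
    have hμ : max (#(J n)) ℵ₀ < #I := max_lt (hJlt n) hc
    exact exists_discrete (hD n) (le_max_right _ _) (J n) (le_max_left _ _)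
      (hlim _ (hlim _ hμ)).le
  choose F hF1 hF2 hF3 using hch
  refine ⟨F, fun n => ⟨hF1 n, hF2 n⟩, dense_iff.2 ?_⟩
  intro s hs
  have hJmono : Monotone J := by
    intro m n hmn x hx
    simp only [J, Finset.mem_range, mem_iUnion] at hx ⊢
    obtain ⟨k, hk, hx⟩ := hx
    exact ⟨k, by omega, hx⟩
  have hcov : ∀ s : Finset I, ∃ n, (s : Set I) ⊆ J n := by
    intro s
    induction s using Finset.induction_on with
    | empty => exact ⟨0, by simp⟩
    | insert x s hx ih =>
      obtain ⟨n, hn⟩ := ih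
      obtain ⟨y, hy, hxy⟩ := hS x
      rw [ha] at hy
      obtain ⟨m, rfl⟩ := hy
      refine ⟨max (m + 1) n, ?_⟩
      rw [Finset.coe_insert, insert_subset_iff]
      refine ⟨hJmono (le_max_left _ _) ?_, hn.trans (hJmono (le_max_right _ _))⟩
      simp only [J, Finset.mem_range, mem_iUnion]
      exact ⟨m, by omega, hxy⟩
  obtain ⟨m, hm⟩ := hcov s.1
  obtain ⟨n, hn⟩ := hcov s.2
  obtain ⟨z, hz, hzF⟩ := hF3 (max m n) s hs (hm.trans (hJmono (le_max_left _ _)))
    (hn.trans (hJmono (le_max_right _ _)))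
  exact ⟨z, hz, mem_iUnion.2 ⟨_, hzF⟩⟩

end Pool.Agent.H94R3.Sigma
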