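import Pool.Agent.H94R3.CellLin

/-!
# A countable Whyburn space that is not D-separable: the inductive step
-/

set_option autoImplicit false

open Set Cardinal

namespace Pool.Agent.H94R3.Whyburn

/-- The countable underlying set. -/
structure Pt where
  /-- the column -/
  col : ℕ
  /-- the row -/
  row : ℕ

instance : Countable Pt :=
  Function.Injective.countable (f := fun x : Pt => (x.col, x.row)) (by
    rintro ⟨a, b⟩ ⟨c, d⟩ h
    simp only [Prod.mk.injEq] at h
    rw [h.1, h.2])

/-- The `n`-th column. -/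
def L (n : ℕ) : Set Pt := {x | x.col = n}

/-- The index set of the independent family. -/
abbrev I : Type := ℕ → Bool

variable (v : I → Pt → Bool)

/-- `q` is robustly in the closure of `B`: every set given by finitely many of the functions in `C`
(with values as at `q`) and by an arbitrary pattern on finitely many coordinates in `U` contains a
point of `B` other than `q`. -/
def Good (C : Set (Pt → Bool)) (U : Set I) (q : Pt) (B : Set Pt) : Prop :=
  ∀ (s : Set (Pt → Bool)) (t : Set I) (g : I → Bool), s.Finite → s ⊆ C → t.Finite → t ⊆ U →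
    ∃ x ∈ B, x ≠ q ∧ (∀ c ∈ s, c x = c q) ∧ ∀ i ∈ t, v i x = g i

theorem Good.mono {C : Set (Pt → Bool)} {U U' : Set I} {q : Pt} {B B' : Set Pt}
    (h : Good v C U q B) (hU : U' ⊆ U) (hB : B ⊆ B') : Good v C U' q B' := by
  intro s t g hs hsC ht htU
  obtain ⟨x, hx, h1⟩ := h s t g hs hsC ht (htU.trans hU)
  exact ⟨x, hB hx, h1⟩

/-- The invariants of the construction. -/
structure Inv (E : Set I) (C : Set (Pt → Bool)) (P : Set (Pt × Set Pt)) : Prop where
  good : ∀ q B, (q, B) ∈ P → Good v C Eᶜ q B
  col : ∀ q B, (q, B) ∈ P → ∀ x ∈ B, (x, B ∩ L x.col) ∈ P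

/-- The pair `(A, p)` has been decided. -/
def Decided (C : Set (Pt → Bool)) (P : Set (Pt × Set Pt)) (A : Set Pt) (p : Pt) : Prop :=
  (∃ s : Set (Pt → Bool), s.Finite ∧ s ⊆ C ∧ ∀ x ∈ A, ¬ ∀ c ∈ s, c x = c p) ∨
  (∃ B, B ⊆ A ∧ (p, B) ∈ P ∧ ∀ z, z ∉ B → z ≠ p →
    ∃ c ∈ C, c z = true ∧ c p = false ∧ ∀ x ∈ B, c x = false)

theorem Decided.mono {C C' : Set (Pt → Bool)} {P P' : Set (Pt × Set Pt)} {A : Set Pt} {p : Pt}
    (h : Decided C P A p) (hC : C ⊆ C') (hP : P ⊆ P') : Decided C' P' A p := by
  rcases h with ⟨s, hs, hsC, h⟩ | ⟨B, hBA, hBP, h⟩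
  · exact Or.inl ⟨s, hs, hsC.trans hC, h⟩
  · refine Or.inr ⟨B, hBA, hP hBP, fun z hz hzp => ?_⟩
    obtain ⟨c, hc, h1⟩ := h z hz hzp
    exact ⟨c, hC hc, h1⟩

theorem infinite_compl {E F : Set I} (hE : #E < #I) (hF : F.Countable) : (E ∪ F)ᶜ.Infinite := by
  have h1 : #(E ∪ F : Set I) < #I := by
    refine (Cardinal.mk_union_le _ _).trans_lt (Cardinal.add_lt_of_lt ?_ hE ?_)
    · exact Cardinal.aleph0_le_mk _
    · refine (Cardinal.le_aleph0_iff_set_countable.2 hF).trans_lt ?_
      simpa using Cardinal.aleph0_lt_continuum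
  have h2 : #((E ∪ F)ᶜ : Set I) = #I := Cardinal.mk_compl_of_infinite _ h1
  rw [← Set.infinite_coe_iff, Cardinal.infinite_iff, h2]
  exact Cardinal.aleph0_le_mk _

open Classical in
/-- The inductive step. -/
theorem step {E : Set I} {C : Set (Pt → Bool)} {P : Set (Pt × Set Pt)} (hI : Inv v E C P)
    (hE : #E < #I) (A : Set Pt) (p : Pt) (hp : p ∉ A) :
    ∃ (E' : Set I) (C' : Set (Pt → Bool)) (P' : Set (Pt × Set Pt)), E ⊆ E' ∧ C ⊆ C' ∧ P ⊆ P' ∧
      (E' \ E).Countable ∧ Inv v E' C' P' ∧ Decided C' P' A p := by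
  -- the kernel
  let K : Set Pt := {x | ∃ (F : Set I) (T : Set Pt), F.Countable ∧ T ⊆ A ∩ L x.col ∧ x ∈ T ∧
    ∀ q ∈ T, Good v C (E ∪ F)ᶜ q T}
  have hK : ∀ x : Pt, ∃ (F : Set I) (T : Set Pt), x ∈ K → F.Countable ∧ T ⊆ A ∩ L x.col ∧ x ∈ T ∧
      ∀ q ∈ T, Good v C (E ∪ F)ᶜ q T := by
    intro x
    by_cases hx : x ∈ K
    · obtain ⟨F, T, h⟩ := hx
      exact ⟨F, T, fun _ => h⟩
    · exact ⟨∅, ∅, fun h => absurd h hx⟩
  choose F T hFT using hK
  let F0 : Set I := ⋃ x ∈ K, F x
  have hF0 : F0.Countable := (Set.to_countable K).biUnion fun x hx => (hFT x hx).1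
  have hKA : K ⊆ A := by
    rintro x ⟨F, T, -, hT, hx, -⟩
    exact (hT hx).1
  have hTK : ∀ x ∈ K, T x ⊆ K ∩ L x.col := by
    intro x hx y hy
    have h1 := hFT x hx
    have h2 : y.col = x.col := (h1.2.1 hy).2
    refine ⟨⟨F x, T x, h1.1, ?_, hy, h1.2.2.2⟩, h2⟩
    rw [h2]
    exact h1.2.1
  -- the kernel is strongly crowded
  have hKgood : ∀ x ∈ K, Good v C (E ∪ F0)ᶜ x (K ∩ L x.col) := by
    intro x hx
    have h1 := hFT x hx
    refine (h1.2.2.2 x h1.2.2.1).mono v ?_ (hTK x hx)
    apply compl_subset_compl.2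
    apply union_subset_union_right
    exact subset_biUnion_of_mem (u := F) hx
  have hinf := infinite_compl hE hF0
  by_cases hcase : ∃ s : Set (Pt → Bool), s.Finite ∧ s ⊆ C ∧ ∀ x ∈ K, ¬ ∀ c ∈ s, c x = c p
  · -- first case: kill
    obtain ⟨s, hs, hsC, hsK⟩ := hcase
    obtain ⟨i, hi⟩ := hinf.nonempty
    have hiE : i ∉ E := fun h => hi (Or.inl h)
    let c0 : Pt → Bool := fun x => decide ((v i x = v i p ∧ ∀ c ∈ s, c x = c p) ∧ x ∉ A)
    refine ⟨E ∪ {i}, C ∪ {c0}, P, subset_union_left, subset_union_left, Subset.rfl,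
      (countable_singleton i).mono (by
        rintro j ⟨hj | hj, hj'⟩
        · exact absurd hj hj'
        · exact hj), ⟨?_, hI.col⟩, ?_⟩
    · intro q B hqB s' t g hs' hs'C ht htU
      have hgood := hI.good q B hqB
      have hit : i ∉ t := fun h => htU h (Or.inr rfl)
      have htE : t ⊆ Eᶜ := fun j hj h => htU hj (Or.inl h)
      have hsub : s' \ {c0} ⊆ C := by
        rintro c ⟨hc, hc0⟩
        rcases hs'C hc with h | h
        · exact h
        · exact absurd h hc0
      have htiE : insert i t ⊆ Eᶜ := by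
        intro j hj
        rcases hj with rfl | hj
        · exact hiE
        · exact htE hj
      by_cases hq : c0 q = true
      · have hq' : (v i q = v i p ∧ ∀ c ∈ s, c q = c p) ∧ q ∉ A := by simpa [c0] using hq
        by_contra hcon
        push Not at hcon
        -- the set on which everything is in `A`
        let T' : Set Pt := {x | x ∈ B ∧ (∀ c ∈ s' \ {c0} ∪ s, c x = c q) ∧
          (∀ j ∈ t, v j x = g j) ∧ v i x = v i p}
        have hT'A : ∀ x ∈ T', x ≠ q → x ∈ A := by
          intro x hx hxq
          by_contra hxA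
          obtain ⟨j, hj, hj'⟩ := hcon x hx.1 hxq (by
            intro c hc
            by_cases hcc : c = c0
            · subst hcc
              rw [hq]
              have : (v i x = v i p ∧ ∀ c ∈ s, c x = c p) ∧ x ∉ A := by
                refine ⟨⟨hx.2.2.2, fun c hc => ?_⟩, hxA⟩
                rw [hx.2.1 c (Or.inr hc), hq'.1.2 c hc]
              simpa [c0] using this
            · exact hx.2.1 c (Or.inl ⟨hc, hcc⟩))
          exact hj' (hx.2.2.1 j hj)
        obtain ⟨x0, hx0B, hx0q, hx0s, hx0t⟩ := hgood (s' \ {c0} ∪ s) (insert i t)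
          (fun j => if j = i then v i p else g j) ((hs'.subset sdiff_subset).union hs)
          (union_subset hsub hsC) (ht.insert i) htiE
        have hx0T : x0 ∈ T' := by
          refine ⟨hx0B, hx0s, fun j hj => ?_, ?_⟩
          · have h1 := hx0t j (Or.inr hj)
            rwa [if_neg (fun h : j = i => hit (h ▸ hj))] at h1
          · have h1 := hx0t i (Or.inl rfl)
            rwa [if_pos rfl] at h1
        -- the part of `T'` in the column of `x0`, without `q`
        let T1 : Set Pt := {x | x ∈ T' ∧ x ≠ q ∧ x.col = x0.col}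
        have hT1K : x0 ∈ K := by
          refine ⟨insert i t, T1, (ht.insert i).countable, ?_, ⟨hx0T, hx0q, rfl⟩, ?_⟩
          · intro x hx
            exact ⟨hT'A x hx.1 hx.2.1, hx.2.2⟩
          · intro y hy s3 t3 g3 hs3 hs3C ht3 ht3U
            have hyP : (y, B ∩ L y.col) ∈ P := hI.col q B hqB y hy.1.1
            -- a function separating from `q` is not available, so use a coordinate
            obtain ⟨j0, hj0⟩ := (infinite_compl (F := insert i t ∪ t3) hE
              ((ht.insert i).union ht3).countable).nonempty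
            have hj0E : j0 ∉ E := fun h => hj0 (Or.inl h)
            have hj0t : j0 ∉ insert i t := fun h => hj0 (Or.inr (Or.inl h))
            have hj0t3 : j0 ∉ t3 := fun h => hj0 (Or.inr (Or.inr h))
            obtain ⟨x, hxB, hxy, hxs, hxt⟩ := hI.good y _ hyP (s3 ∪ (s' \ {c0} ∪ s))
              (insert j0 (t3 ∪ insert i t))
              (fun j => if j = j0 then ! v j0 q else if j ∈ t3 then g3 j else
                if j = i then v i p else g j)
              (hs3.union ((hs'.subset sdiff_subset).union hs))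
              (union_subset hs3C (union_subset hsub hsC))
              ((ht3.union (ht.insert i)).insert j0) (by
                rintro j (rfl | hj | hj)
                · exact hj0E
                · exact fun h => ht3U hj (Or.inl h)
                · exact htiE hj)
            have hxj0 : v j0 x = ! v j0 q := by
              have h1 := hxt j0 (Or.inl rfl)
              rwa [if_pos rfl] at h1
            have hxq : x ≠ q := by
              rintro rfl
              simp at hxj0
            have ht3' : ∀ j ∈ insert i t, j ∉ t3 := fun j hj h => ht3U h (Or.inr hj)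
            refine ⟨x, ⟨⟨hxB.1, ?_, ?_, ?_⟩, hxq, ?_⟩, hxy, fun c hc => hxs c (Or.inl hc), ?_⟩
            · intro c hc
              rw [hxs c (Or.inr hc), hy.1.2.1 c hc]
            · intro j hj
              have h1 := hxt j (Or.inr (Or.inr (Or.inr hj)))
              rwa [if_neg (fun h : j = j0 => hj0t (h ▸ Or.inr hj)), if_neg (ht3' j (Or.inr hj)),
                if_neg (fun h : j = i => hit (h ▸ hj))] at h1
            · have h1 := hxt i (Or.inr (Or.inr (Or.inl rfl)))
              rwa [if_neg (fun h : i = j0 => hj0t (h ▸ Or.inl rfl)),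
                if_neg (ht3' i (Or.inl rfl)), if_pos rfl] at h1
            · have h1 : x.col = y.col := hxB.2
              rw [h1, hy.2.2]
            · intro j hj
              have h1 := hxt j (Or.inr (Or.inl hj))
              rwa [if_neg (fun h : j = j0 => hj0t3 (h ▸ hj)), if_pos hj] at h1
        refine hsK x0 hT1K fun c hc => ?_
        rw [hx0s c (Or.inr hc), hq'.1.2 c hc]
      · obtain ⟨x, hxB, hxq, hxs, hxt⟩ := hgood (s' \ {c0}) (insert i t)
          (fun j => if j = i then ! v i p else g j) (hs'.subset sdiff_subset) hsub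
          (ht.insert i) htiE
        refine ⟨x, hxB, hxq, fun c hc => ?_, fun j hj => ?_⟩
        · by_cases hcc : c = c0
          · subst hcc
            have h1 := hxt i (Or.inl rfl)
            rw [if_pos rfl] at h1
            have h2 : c0 x = false := by
              simp [c0, h1]
            rw [h2]
            simpa using hq
          · exact hxs c ⟨hc, hcc⟩
        · have h1 := hxt j (Or.inr hj)
          rwa [if_neg (fun h : j = i => hit (h ▸ hj))] at h1
    · left
      refine ⟨insert c0 s, hs.insert c0, ?_, ?_⟩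
      · rintro c (rfl | hc)
        · exact Or.inr rfl
        · exact Or.inl (hsC hc)
      · intro x hxA hx
        have h1 := hx c0 (Or.inl rfl)
        have h2 : c0 p = true := by simp [c0, hp]
        rw [h2] at h1
        have h3 : (v i x = v i p ∧ ∀ c ∈ s, c x = c p) ∧ x ∉ A := by simpa [c0] using h1
        exact h3.2 hxA
  · -- second case: promise
    push Not at hcase
    obtain ⟨emb⟩ : Nonempty (ℕ ↪ ((E ∪ F0)ᶜ : Set I)) := ⟨hinf.natEmbedding _⟩
    obtain ⟨en, hen⟩ := exists_injective_nat Pt
    let i : I := emb 0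
    let k : Pt → I := fun z => emb (en z + 1)
    have hi : i ∉ E ∪ F0 := (emb 0).2
    have hk : ∀ z, k z ∉ E ∪ F0 := fun z => (emb (en z + 1)).2
    have hki : ∀ z, k z ≠ i := by
      intro z h
      have := emb.injective (Subtype.ext h)
      omega
    have hkinj : Function.Injective k := by
      intro z z' h
      have := emb.injective (Subtype.ext h)
      exact hen (by omega)
    let B : Set Pt := {x | x ∈ K ∧ v i x = v i p}
    have hBA : B ⊆ A := fun x hx => hKA hx.1
    have hpB : p ∉ B := fun h => hp (hBA h)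
    let cz : Pt → Pt → Bool := fun z x => decide (v (k z) x = v (k z) z ∧ x ∉ B ∧ x ≠ p)
    let Z : Set Pt := {z | z ∉ B ∧ z ≠ p}
    refine ⟨E ∪ F0 ∪ {i} ∪ range k, C ∪ cz '' Z,
      P ∪ ({(p, B)} ∪ (fun x : Pt => (x, B ∩ L x.col)) '' B),
      fun j hj => Or.inl (Or.inl (Or.inl hj)), subset_union_left, subset_union_left, ?_, ⟨?_, ?_⟩,
      ?_⟩
    · refine ((hF0.union (countable_singleton i)).union (countable_range k)).mono ?_
      rintro j ⟨((hj | hj) | hj) | hj, hj'⟩
      · exact absurd hj hj'
      · exact Or.inl (Or.inl hj)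
      · exact Or.inl (Or.inr hj)
      · exact Or.inr hj
    · -- goodness
      -- splitting of the finite set of functions
      have hsplit : ∀ s' : Set (Pt → Bool), s'.Finite → s' ⊆ C ∪ cz '' Z →
          ∃ (s : Set (Pt → Bool)) (Y : Set Pt), s.Finite ∧ s ⊆ C ∧ Y.Finite ∧ Y ⊆ Z ∧
            s' ⊆ s ∪ cz '' Y := by
        intro s' hs' hs'C
        have h1 : s' \ C ⊆ cz '' Z := by
          rintro c ⟨hc, hcC⟩
          rcases hs'C hc with h | h
          · exact absurd h hcC
          · exact h
        have h2 : ∀ c, ∃ z, c ∈ s' \ C → z ∈ Z ∧ cz z = c := by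
          intro c
          by_cases hc : c ∈ s' \ C
          · obtain ⟨z, hz⟩ := h1 hc
            exact ⟨z, fun _ => hz⟩
          · exact ⟨p, fun h => absurd h hc⟩
        choose zf hzf using h2
        refine ⟨s' ∩ C, zf '' (s' \ C), hs'.subset inter_subset_left, inter_subset_right,
          (hs'.subset sdiff_subset).image _, ?_, ?_⟩
        · rintro _ ⟨c, hc, rfl⟩
          exact (hzf c hc).1
        · intro c hc
          by_cases hcC : c ∈ C
          · exact Or.inl ⟨hc, hcC⟩
          · exact Or.inr ⟨zf c, ⟨c, ⟨hc, hcC⟩, rfl⟩, (hzf c ⟨hc, hcC⟩).2⟩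
      have hczB : ∀ z x, x ∈ B → cz z x = false := by
        intro z x hx
        simp [cz, hx]
      have hczp : ∀ z, cz z p = false := by
        intro z
        simp [cz]
      -- the new promises
      have hnew : ∀ x ∈ K, ∀ (s : Set (Pt → Bool)) (t : Set I) (g : I → Bool), s.Finite → s ⊆ C →
          t.Finite → t ⊆ (E ∪ F0 ∪ {i} ∪ range k)ᶜ →
          ∃ y ∈ B ∩ L x.col, y ≠ x ∧ (∀ c ∈ s, c y = c x) ∧ ∀ j ∈ t, v j y = g j := by
        intro x hx s t g hs hsC ht htU
        have hit : i ∉ t := fun h => htU h (Or.inl (Or.inr rfl))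
        obtain ⟨y, hy, hyx, hys, hyt⟩ := hKgood x hx s (insert i t)
          (fun j => if j = i then v i p else g j) hs hsC (ht.insert i) (by
            rintro j (rfl | hj)
            · exact hi
            · exact fun h => htU hj (Or.inl (Or.inl h)))
        refine ⟨y, ⟨⟨hy.1, ?_⟩, hy.2⟩, hyx, hys, fun j hj => ?_⟩
        · have h1 := hyt i (Or.inl rfl)
          rwa [if_pos rfl] at h1
        · have h1 := hyt j (Or.inr hj)
          rwa [if_neg (fun h : j = i => hit (h ▸ hj))] at h1
      intro q B' hqB' s' t g hs' hs'C ht htU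
      obtain ⟨s, Y, hs, hsC, hY, hYZ, hs'Y⟩ := hsplit s' hs' hs'C
      rcases hqB' with hqB' | hqB' | ⟨x, hx, hqB'⟩
      · -- an old promise
        have hit : i ∉ t := fun h => htU h (Or.inl (Or.inr rfl))
        have hkt : ∀ z, k z ∉ t := fun z h => htU h (Or.inr ⟨z, rfl⟩)
        have hUE : insert i (t ∪ k '' Y) ⊆ Eᶜ := by
          rintro j (rfl | hj | ⟨z, -, rfl⟩)
          · exact fun h => hi (Or.inl h)
          · exact fun h => htU hj (Or.inl (Or.inl (Or.inl h)))
          · exact fun h => hk z (Or.inl h)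
        have hfin : (insert i (t ∪ k '' Y)).Finite := (ht.union (hY.image k)).insert i
        by_cases hq : q ∈ B ∨ q = p
        · obtain ⟨y, hyB, hyq, hys, hyt⟩ := hI.good q B' hqB' s (insert i (t ∪ k '' Y))
            (fun j => if h : ∃ z, k z = j then ! v j h.choose else g j) hs hsC hfin hUE
          refine ⟨y, hyB, hyq, fun c hc => ?_, fun j hj => ?_⟩
          · rcases hs'Y hc with hc | ⟨z, hz, rfl⟩
            · exact hys c hc
            · have h1 := hyt (k z) (Or.inr (Or.inr ⟨z, hz, rfl⟩))
              have h2 : ∃ z', k z' = k z := ⟨z, rfl⟩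
              rw [dif_pos h2, hkinj h2.choose_spec] at h1
              have h3 : cz z y = false := by simp [cz, h1]
              have h4 : cz z q = false := by
                rcases hq with hq | rfl
                · exact hczB z q hq
                · exact hczp z
              rw [h3, h4]
          · have h1 := hyt j (Or.inr (Or.inl hj))
            rwa [dif_neg (by rintro ⟨z, rfl⟩; exact hkt z hj)] at h1
        · push Not at hq
          obtain ⟨y, hyB, hyq, hys, hyt⟩ := hI.good q B' hqB' s (insert i (t ∪ k '' Y))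
            (fun j => if j = i then ! v i p else if ∃ z, k z = j then v j q else g j)
            hs hsC hfin hUE
          have hyi : v i y = ! v i p := by
            have h1 := hyt i (Or.inl rfl)
            rwa [if_pos rfl] at h1
          have hyB' : y ∉ B := by
            rintro ⟨-, h⟩
            rw [h] at hyi
            simp at hyi
          have hyp : y ≠ p := by
            rintro rfl
            simp at hyi
          refine ⟨y, hyB, hyq, fun c hc => ?_, fun j hj => ?_⟩
          · rcases hs'Y hc with hc | ⟨z, hz, rfl⟩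
            · exact hys c hc
            · have h1 := hyt (k z) (Or.inr (Or.inr ⟨z, hz, rfl⟩))
              have h2 : ∃ z', k z' = k z := ⟨z, rfl⟩
              rw [if_neg (hki z), if_pos h2] at h1
              simp only [cz, h1, hyB', hq.1]
              simp [hyp, hq.2]
          · have h1 := hyt j (Or.inr (Or.inl hj))
            rwa [if_neg (fun h : j = i => hit (h ▸ hj)),
              if_neg (by rintro ⟨z, rfl⟩; exact hkt z hj)] at h1
      · -- the new promise at `p`
        simp only [mem_singleton_iff, Prod.mk.injEq] at hqB'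
        obtain ⟨rfl, rfl⟩ := hqB'
        obtain ⟨x, hxK, hx⟩ := hcase s hs hsC
        obtain ⟨y, hy, -, hys, hyt⟩ := hnew x hxK s t g hs hsC ht htU
        refine ⟨y, hy.1, ?_, fun c hc => ?_, hyt⟩
        · rintro rfl
          exact hpB hy.1
        · rcases hs'Y hc with hc | ⟨z, hz, rfl⟩
          · rw [hys c hc, hx c hc]
          · rw [hczB z y hy.1, hczp z]
      · simp only [Prod.mk.injEq] at hqB'
        obtain ⟨rfl, rfl⟩ := hqB'
        obtain ⟨y, hy, hyx, hys, hyt⟩ := hnew x hx.1 s t g hs hsC ht htU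
        refine ⟨y, hy, hyx, fun c hc => ?_, hyt⟩
        rcases hs'Y hc with hc | ⟨z, hz, rfl⟩
        · exact hys c hc
        · rw [hczB z y hy.1, hczB z x hx]
    · intro q B' hqB' x hx
      rcases hqB' with hqB' | hqB' | ⟨y, hy, hqB'⟩
      · exact Or.inl (hI.col q B' hqB' x hx)
      · simp only [mem_singleton_iff, Prod.mk.injEq] at hqB'
        obtain ⟨rfl, rfl⟩ := hqB'
        exact Or.inr (Or.inr ⟨x, hx, rfl⟩)
      · simp only [Prod.mk.injEq] at hqB'
        obtain ⟨rfl, rfl⟩ := hqB'
        have h1 : x.col = y.col := hx.2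
        refine Or.inr (Or.inr ⟨x, hx.1, ?_⟩)
        simp only [Prod.mk.injEq, true_and]
        rw [h1, inter_assoc, inter_self]
    · right
      refine ⟨B, hBA, Or.inr (Or.inl rfl), fun z hzB hzp => ?_⟩
      refine ⟨cz z, Or.inr ⟨z, ⟨hzB, hzp⟩, rfl⟩, ?_, ?_, ?_⟩
      · simp [cz, hzB, hzp]
      · simp [cz]
      · intro x hx
        simp [cz, hx]

end Pool.Agent.H94R3.Whyburn
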