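import Pool.Agent.H94R3.Whyburn
import Pool.Agent.H94R3.Sigma

/-!
# A countable Whyburn space that is not D-separable: the transfinite construction
-/

set_option autoImplicit false

open Set Cardinal

namespace Pool.Agent.H94R3.Whyburn

variable (v : I → Pt → Bool)

/-- The states of the construction. -/
abbrev St : Type := Set I × Set (Pt → Bool) × Set (Pt × Set Pt)

/-- Invariants of a state. -/
def InvS (s : St) : Prop := Inv v s.1 s.2.1 s.2.2

/-- The union of a set of states. -/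
def join (S : Set St) : St := (⋃ s ∈ S, s.1, ⋃ s ∈ S, s.2.1, ⋃ s ∈ S, s.2.2)

theorem le_join {S : Set St} {s : St} (hs : s ∈ S) : s ≤ join S := by
  refine ⟨?_, ?_, ?_⟩
  · exact subset_biUnion_of_mem (u := fun s : St => s.1) hs
  · exact subset_biUnion_of_mem (u := fun s : St => s.2.1) hs
  · exact subset_biUnion_of_mem (u := fun s : St => s.2.2) hs

/-- The invariants pass to directed unions. -/
theorem inv_join {S : Set St} (hne : S.Nonempty) (hdir : DirectedOn (· ≤ ·) S)
    (hS : ∀ s ∈ S, InvS v s) {E : Set I} (hE : (join S).1 ⊆ E) :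
    Inv v E (join S).2.1 (join S).2.2 := by
  constructor
  · intro q B hqB s t g hs hsC ht htE
    obtain ⟨s1, hs1, hqB1⟩ := mem_iUnion₂.1 hqB
    have hdir' : DirectedOn (fun i j : St => i.2.1 ⊆ j.2.1) S := by
      intro x hx y hy
      obtain ⟨z, hz, hxz, hyz⟩ := hdir x hx y hy
      exact ⟨z, hz, hxz.2.1, hyz.2.1⟩
    obtain ⟨s2, hs2, hs2'⟩ := hdir'.exists_mem_subset_of_finset_subset_biUnion hne
      (s := hs.toFinset) (f := fun s : St => s.2.1) (by rw [hs.coe_toFinset]; exact hsC)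
    rw [hs.coe_toFinset] at hs2'
    obtain ⟨s3, hs3, h13, h23⟩ := hdir s1 hs1 s2 hs2
    exact (hS s3 hs3).good q B (h13.2.2 hqB1) s t g hs (hs2'.trans h23.2.1) ht
      (htE.trans (compl_subset_compl.2 ((le_join hs3).1.trans hE)))
  · intro q B hqB x hx
    obtain ⟨s1, hs1, hqB1⟩ := mem_iUnion₂.1 hqB
    exact mem_iUnion₂.2 ⟨s1, hs1, (hS s1 hs1).col q B hqB1 x hx⟩

theorem step' {s : St} (h : InvS v s) (hc : #s.1 < #I) (a : Set Pt × Pt) :
    ∃ s' : St, s ≤ s' ∧ (s'.1 \ s.1).Countable ∧ InvS v s' ∧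
      (a.2 ∉ a.1 → Decided s'.2.1 s'.2.2 a.1 a.2) := by
  by_cases ha : a.2 ∉ a.1
  · obtain ⟨E', C', P', h1, h2, h3, h4, h5, h6⟩ := step v h hc a.1 a.2 ha
    exact ⟨(E', C', P'), ⟨h1, h2, h3⟩, h4, h5, fun _ => h6⟩
  · exact ⟨s, le_rfl, by simp, h, fun h => absurd h ha⟩

/-- The result of the construction. -/
theorem exists_final (base : St) (hbase : InvS v base) (hbase0 : base.1 = ∅) :
    ∃ (C : Set (Pt → Bool)) (P : Set (Pt × Set Pt)), base.2.2 ⊆ P ∧ Inv v univ C P ∧
      ∀ A p, p ∉ A → Decided C P A p := by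
  classical
  let W : Type := (𝔠 : Cardinal.{0}).ord.ToType
  have hW : #W = 𝔠 := by simp [W]
  have hI : #I = 𝔠 := by simp
  have hIio : ∀ a : W, #(Iio a) < 𝔠 := by
    intro a
    have := Cardinal.mk_Iio_lt a (by simp [W] : (#W).ord = Ordinal.type ((· < ·) : W → W → Prop))
    rwa [hW] at this
  obtain ⟨e⟩ : Nonempty (W ≃ Set Pt × Pt) := by
    rw [← Cardinal.eq, hW]
    have hPt : #Pt = ℵ₀ := by
      have : Infinite Pt :=
        Infinite.of_injective (fun n : ℕ => Pt.mk n 0) (fun a b h => congrArg Pt.col h)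
      exact Cardinal.mk_eq_aleph0 Pt
    simp [hPt]
  let nxt : W → St → St := fun a s =>
    if h : InvS v s ∧ #s.1 < #I then Classical.choose (step' v h.1 h.2 (e a)) else s
  have hnxt : ∀ a s, InvS v s → #s.1 < #I → s ≤ nxt a s ∧ ((nxt a s).1 \ s.1).Countable ∧
      InvS v (nxt a s) ∧ ((e a).2 ∉ (e a).1 →
        Decided (nxt a s).2.1 (nxt a s).2.2 (e a).1 (e a).2) := by
    intro a s h1 h2
    have h : InvS v s ∧ #s.1 < #I := ⟨h1, h2⟩
    have h3 : nxt a s = Classical.choose (step' v h.1 h.2 (e a)) := dif_pos h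
    rw [h3]
    exact Classical.choose_spec (step' v h.1 h.2 (e a))
  let f : W → St := (wellFounded_lt : WellFounded ((· < ·) : W → W → Prop)).fix
    (fun a g => nxt a (join (insert base (range fun b : Iio a => g b.1 b.2))))
  let pre : W → St := fun a => join (insert base (range fun b : Iio a => f b.1))
  have hf : ∀ a, f a = nxt a (pre a) := fun a =>
    (wellFounded_lt : WellFounded ((· < ·) : W → W → Prop)).fix_eq _ a
  have hfpre : ∀ a b, b < a → f b ≤ pre a := fun a b hab =>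
    le_join (Or.inr ⟨⟨b, hab⟩, rfl⟩)
  have hbpre : ∀ a, base ≤ pre a := fun a => le_join (Or.inl rfl)
  have key : ∀ a, InvS v (pre a) ∧ #(pre a).1 < #I := by
    intro a
    induction a using (wellFounded_lt : WellFounded ((· < ·) : W → W → Prop)).induction with
    | _ a ih =>
    have hstep : ∀ b, b < a → pre b ≤ f b ∧ ((f b).1 \ (pre b).1).Countable ∧ InvS v (f b) := by
      intro b hb
      obtain ⟨h1, h2⟩ := ih b hb
      have h3 := hnxt b (pre b) h1 h2
      rw [← hf b] at h3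
      exact ⟨h3.1, h3.2.1, h3.2.2.1⟩
    have hchain : ∀ b c, b ≤ c → c < a → f b ≤ f c := by
      intro b c hbc hca
      rcases hbc.lt_or_eq with h | rfl
      · exact (hfpre c b h).trans (hstep c hca).1
      · exact le_rfl
    constructor
    · refine inv_join v ⟨base, Or.inl rfl⟩ ?_ ?_ Subset.rfl
      · rintro x hx y hy
        rcases hx with rfl | ⟨⟨b, hb⟩, rfl⟩
        · rcases hy with rfl | ⟨⟨c, hc⟩, rfl⟩
          · exact ⟨_, Or.inl rfl, le_rfl, le_rfl⟩
          · exact ⟨_, Or.inr ⟨⟨c, hc⟩, rfl⟩, (hbpre c).trans (hstep c hc).1, le_rfl⟩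
        · rcases hy with rfl | ⟨⟨c, hc⟩, rfl⟩
          · exact ⟨_, Or.inr ⟨⟨b, hb⟩, rfl⟩, le_rfl, (hbpre b).trans (hstep b hb).1⟩
          · rcases le_total b c with h | h
            · exact ⟨_, Or.inr ⟨⟨c, hc⟩, rfl⟩, hchain b c h hc, le_rfl⟩
            · exact ⟨_, Or.inr ⟨⟨b, hb⟩, rfl⟩, le_rfl, hchain c b h hb⟩
      · rintro x (rfl | ⟨⟨b, hb⟩, rfl⟩)
        · exact hbase
        · exact (hstep b hb).2.2
    · -- cardinality
      have hsub : (pre a).1 ⊆ ⋃ b : Iio a, ((f b.1).1 \ (pre b.1).1) := by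
        intro x hx
        have hx' : ∃ b, b < a ∧ x ∈ (f b).1 := by
          obtain ⟨s, hs, hxs⟩ := mem_iUnion₂.1 hx
          rcases hs with rfl | ⟨⟨b, hb⟩, rfl⟩
          · rw [hbase0] at hxs
            exact absurd hxs (notMem_empty x)
          · exact ⟨b, hb, hxs⟩
        let m := (wellFounded_lt : WellFounded ((· < ·) : W → W → Prop)).min
          {b | b < a ∧ x ∈ (f b).1} hx'
        have hm : m < a ∧ x ∈ (f m).1 := WellFounded.min_mem _ _ hx'
        refine mem_iUnion.2 ⟨⟨m, hm.1⟩, hm.2, fun hxm => ?_⟩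
        obtain ⟨s, hs, hxs⟩ := mem_iUnion₂.1 hxm
        rcases hs with rfl | ⟨⟨b, hb⟩, rfl⟩
        · rw [hbase0] at hxs
          exact absurd hxs (notMem_empty x)
        · have hb' : b < m := hb
          exact WellFounded.not_lt_min (wellFounded_lt : WellFounded ((· < ·) : W → W → Prop))
            (s := {b | b < a ∧ x ∈ (f b).1}) (show b ∈ {b | b < a ∧ x ∈ (f b).1} from
            ⟨hb'.trans hm.1, hxs⟩) hb'
      have h1 : #(⋃ b : Iio a, ((f b.1).1 \ (pre b.1).1) : Set I) ≤ #(Iio a) * ℵ₀ := by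
        refine (Cardinal.mk_iUnion_le _).trans ?_
        refine mul_le_mul' le_rfl (ciSup_le' fun b => ?_)
        exact Cardinal.le_aleph0_iff_set_countable.2 (hstep b.1 b.2).2.1
      refine (Cardinal.mk_le_mk_of_subset hsub).trans_lt (h1.trans_lt ?_)
      rw [hI]
      exact Cardinal.mul_lt_of_lt Cardinal.aleph0_le_continuum (hIio a)
        Cardinal.aleph0_lt_continuum
  have hstep : ∀ b, pre b ≤ f b ∧ InvS v (f b) ∧ ((e b).2 ∉ (e b).1 →
        Decided (f b).2.1 (f b).2.2 (e b).1 (e b).2) := by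
    intro b
    obtain ⟨h1, h2⟩ := key b
    have h3 := hnxt b (pre b) h1 h2
    rw [← hf b] at h3
    exact ⟨h3.1, h3.2.2⟩
  have hmono : ∀ b c, b ≤ c → f b ≤ f c := by
    intro b c hbc
    rcases hbc.lt_or_eq with h | rfl
    · exact (hfpre c b h).trans (hstep c).1
    · exact le_rfl
  have hWne : Nonempty W := by
    rw [← Cardinal.mk_ne_zero_iff, hW]
    exact Cardinal.continuum_ne_zero
  have w0 : W := hWne.some
  refine ⟨(join (range f)).2.1, (join (range f)).2.2, ?_, ?_, ?_⟩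
  · exact ((hbpre w0).trans (hstep w0).1).2.2.trans (le_join (mem_range_self w0)).2.2
  · refine inv_join v (range_nonempty f) ?_ ?_ (subset_univ _)
    · rintro _ ⟨b, rfl⟩ _ ⟨c, rfl⟩
      rcases le_total b c with h | h
      · exact ⟨_, ⟨c, rfl⟩, hmono b c h, le_rfl⟩
      · exact ⟨_, ⟨b, rfl⟩, le_rfl, hmono c b h⟩
    · rintro _ ⟨b, rfl⟩
      exact (hstep b).2.1
  · intro A p hp
    have h1 := (hstep (e.symm (A, p))).2.2
    rw [Equiv.apply_symm_apply] at h1
    exact (h1 hp).mono (le_join (mem_range_self _)).2.1 (le_join (mem_range_self _)).2.2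

/-- The topology generated by a set of two-valued functions. -/
@[instance_reducible]
def topo (C : Set (Pt → Bool)) : TopologicalSpace Pt where
  IsOpen U := ∀ x ∈ U, ∃ s : Set (Pt → Bool), s.Finite ∧ s ⊆ C ∧
    ∀ y, (∀ c ∈ s, c y = c x) → y ∈ U
  isOpen_univ := fun _ _ => ⟨∅, finite_empty, empty_subset _, fun _ _ => trivial⟩
  isOpen_inter := by
    rintro U V hU hV x ⟨hxU, hxV⟩
    obtain ⟨s, hs, hsC, h⟩ := hU x hxU
    obtain ⟨t, ht, htC, h'⟩ := hV x hxV
    exact ⟨s ∪ t, hs.union ht, union_subset hsC htC, fun y hy =>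
      ⟨h y fun c hc => hy c (Or.inl hc), h' y fun c hc => hy c (Or.inr hc)⟩⟩
  isOpen_sUnion := by
    rintro S hS x ⟨U, hU, hx⟩
    obtain ⟨s, hs, hsC, h⟩ := hS U hU x hx
    exact ⟨s, hs, hsC, fun y hy => ⟨U, hU, h y hy⟩⟩

/-- The Whyburn property. -/
def IsWhyburn (X : Type*) [TopologicalSpace X] : Prop :=
  ∀ (A : Set X) (p : X), p ∈ closure A \ A → ∃ B, B ⊆ A ∧ closure B = B ∪ {p}

open Pool.Agent.H94R3.Sigma in
/-- There is a countable Whyburn space that is not D-separable. -/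
theorem exists_space : ∃ (X : Type) (_ : TopologicalSpace X), Countable X ∧ T3Space X ∧
    IsWhyburn X ∧ ¬ SelectivelyDSeparable X := by
  classical
  obtain ⟨A0, hA0⟩ := CellLin.exists_indep
  let v : I → Pt → Bool := fun w x => decide (x.row ∈ A0 w)
  have hv : ∀ (n : ℕ) (q : Pt), Good v ∅ univ q (L n) := by
    intro n q s t g hs hsC ht htU
    obtain ⟨m, hm, h⟩ := hA0 ht.toFinset {w | g w = true} (q.row + 1)
    refine ⟨⟨n, m⟩, rfl, ?_, ?_, ?_⟩
    · rintro rfl
      simp at hm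
    · intro c hc
      exact absurd (hsC hc) (notMem_empty c)
    · intro i hi
      have h1 := h i (ht.mem_toFinset.2 hi)
      simp only [mem_ofPred_eq] at h1
      show decide (m ∈ A0 i) = g i
      rw [Bool.eq_iff_iff, decide_eq_true_iff]
      exact h1
  let base : St := (∅, ∅, {x | ∃ n, x.2 = L n})
  have hbase : InvS v base := by
    constructor
    · rintro q B ⟨n, hn⟩
      simp only at hn
      subst hn
      simpa [base] using hv n q
    · rintro q B ⟨n, hn⟩ x hx
      simp only at hn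
      subst hn
      refine ⟨n, ?_⟩
      have h1 : x.col = n := hx
      simp only
      rw [h1, inter_self]
  obtain ⟨C, P, hP, hInv, hdec⟩ := exists_final v base hbase rfl
  have hgood : ∀ q B, (q, B) ∈ P → ∀ s : Set (Pt → Bool), s.Finite → s ⊆ C →
      ∃ x ∈ B, x ≠ q ∧ ∀ c ∈ s, c x = c q := by
    intro q B hqB s hs hsC
    obtain ⟨x, hx, hxq, h, -⟩ := hInv.good q B hqB s ∅ (fun _ => true) hs hsC finite_empty
      (empty_subset _)
    exact ⟨x, hx, hxq, h⟩
  have hL : ∀ q n, (q, L n) ∈ P := fun q n => hP ⟨n, rfl⟩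
  let _ : TopologicalSpace Pt := topo C
  have hbasic : ∀ (s : Set (Pt → Bool)), s.Finite → s ⊆ C → ∀ x : Pt,
      IsOpen {y | ∀ c ∈ s, c y = c x} := by
    intro s hs hsC x y hy
    exact ⟨s, hs, hsC, fun z hz c hc => (hz c hc).trans (hy c hc)⟩
  have hopen1 : ∀ c ∈ C, ∀ b : Bool, IsOpen {y | c y = b} := by
    intro c hc b x hx
    refine ⟨{c}, finite_singleton c, singleton_subset_iff.2 hc, fun y hy => ?_⟩
    have h1 := hy c rfl
    have h2 : c x = b := hx
    show c y = b
    rw [h1, h2]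
  have hcl : ∀ (A : Set Pt) (p : Pt), p ∈ closure A ↔
      ∀ s : Set (Pt → Bool), s.Finite → s ⊆ C → ∃ x ∈ A, ∀ c ∈ s, c x = c p := by
    intro A p
    rw [mem_closure_iff]
    constructor
    · intro h s hs hsC
      obtain ⟨x, hx, hxA⟩ := h _ (hbasic s hs hsC p) (fun _ _ => rfl)
      exact ⟨x, hxA, hx⟩
    · intro h U hU hp
      obtain ⟨s, hs, hsC, h1⟩ := hU p hp
      obtain ⟨x, hxA, hx⟩ := h s hs hsC
      exact ⟨x, h1 x hx, hxA⟩
  have hsep : ∀ x p : Pt, x ≠ p → ∃ c ∈ C, c x ≠ c p := by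
    intro x p hxp
    rcases hdec {x} p (fun h => hxp h.symm) with ⟨s, hs, hsC, h⟩ | ⟨B, hB, hBP, -⟩
    · have h1 := h x rfl
      push Not at h1
      obtain ⟨c, hc, h2⟩ := h1
      exact ⟨c, hsC hc, h2⟩
    · exfalso
      obtain ⟨y, hy, -, -⟩ := hgood p B hBP ∅ finite_empty (empty_subset _)
      obtain ⟨y', hy', hne, -⟩ := hgood y _ (hInv.col p B hBP y hy) ∅ finite_empty
        (empty_subset _)
      exact hne ((hB hy'.1).trans (hB hy).symm)
  refine ⟨Pt, topo C, inferInstance, ?_, ?_, ?_⟩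
  · have h1 : T2Space Pt := by
      constructor
      intro x y hxy
      obtain ⟨c, hc, h⟩ := hsep x y hxy
      refine ⟨{z | c z = c x}, {z | c z = c y}, hopen1 c hc _, hopen1 c hc _, rfl, rfl, ?_⟩
      rw [Set.disjoint_left]
      intro z hz hz'
      exact h (hz.symm.trans hz')
    have h2 : RegularSpace Pt := by
      apply RegularSpace.of_exists_mem_nhds_isClosed_subset
      intro x U hU
      obtain ⟨V, hVU, hV, hxV⟩ := mem_nhds_iff.1 hU
      obtain ⟨s, hs, hsC, h⟩ := hV x hxV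
      refine ⟨{y | ∀ c ∈ s, c y = c x}, (hbasic s hs hsC x).mem_nhds (fun _ _ => rfl), ?_,
        fun y hy => hVU (h y hy)⟩
      have : {y | ∀ c ∈ s, c y = c x} = ⋂ c ∈ s, {y : Pt | c y = c x} := by
        ext y
        simp
      rw [this]
      refine isClosed_biInter fun c hc => ?_
      rw [← isOpen_compl_iff]
      have h3 : {y : Pt | c y = c x}ᶜ = {y | c y = ! c x} := by
        ext y
        simp only [mem_compl_iff, mem_ofPred_eq]
        cases c y <;> cases c x <;> simp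
      rw [h3]
      exact hopen1 c (hsC hc) _
    exact { }
  · intro A p hp
    rcases hdec A p hp.2 with ⟨s, hs, hsC, h⟩ | ⟨B, hB, hBP, h⟩
    · obtain ⟨x, hxA, hx⟩ := (hcl A p).1 hp.1 s hs hsC
      exact absurd hx (h x hxA)
    · refine ⟨B, hB, Subset.antisymm ?_ ?_⟩
      · intro z hz
        by_contra hz'
        simp only [mem_union, mem_singleton_iff, not_or] at hz'
        obtain ⟨c, hc, h1, -, h3⟩ := h z hz'.1 hz'.2
        obtain ⟨x, hxB, hx⟩ := (hcl B z).1 hz {c} (finite_singleton c)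
          (singleton_subset_iff.2 hc)
        have := hx c rfl
        rw [h1, h3 x hxB] at this
        simp at this
      · rintro z (hz | hz)
        · exact subset_closure hz
        · rw [mem_singleton_iff] at hz
          subst hz
          rw [hcl]
          intro s hs hsC
          obtain ⟨x, hx, -, h1⟩ := hgood z B hBP s hs hsC
          exact ⟨x, hx, h1⟩
  · intro hD
    obtain ⟨F, hF, hdense⟩ := hD L (fun n q => (hcl _ _).2 fun s hs hsC => by
      obtain ⟨x, hx, -, h1⟩ := hgood q (L n) (hL q n) s hs hsC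
      exact ⟨x, hx, h1⟩)
    -- a discrete set contains no strongly crowded set
    have hdisc : ∀ (n : ℕ) (x : Pt) (B : Set Pt), x ∈ F n → B ⊆ F n → (x, B) ∉ P := by
      intro n x B hx hBF hxB
      obtain ⟨O, hO, hOx⟩ := isDiscrete_iff_forall_mem_exists_isOpen.1 (hF n).2 x hx
      have hxO : x ∈ O := by
        have : x ∈ O ∩ F n := by rw [hOx]; rfl
        exact this.1
      obtain ⟨s, hs, hsC, h⟩ := hO x hxO
      obtain ⟨y, hy, hyx, h1⟩ := hgood x B hxB s hs hsC
      have : y ∈ O ∩ F n := ⟨h y h1, hBF hy⟩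
      rw [hOx] at this
      exact hyx this
    have hne : ∃ p, p ∈ L 0 ∧ p ∉ F 0 := by
      by_contra hcon
      push Not at hcon
      exact hdisc 0 ⟨0, 0⟩ (L 0) (hcon _ rfl) hcon (hL _ _)
    obtain ⟨p, hpL, hpF⟩ := hne
    have hmem : ∀ x, x ∈ ⋃ n, F n → x ∈ F x.col := by
      intro x hx
      obtain ⟨n, hn⟩ := mem_iUnion.1 hx
      have : x.col = n := (hF n).1 hn
      rwa [this]
    have hp : p ∉ ⋃ n, F n := by
      intro h
      have h1 := hmem p h
      have h2 : p.col = 0 := hpL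
      rw [h2] at h1
      exact hpF h1
    rcases hdec (⋃ n, F n) p hp with ⟨s, hs, hsC, h⟩ | ⟨B, hB, hBP, -⟩
    · obtain ⟨x, hxA, hx⟩ := (hcl _ p).1 (hdense p) s hs hsC
      exact absurd hx (h x hxA)
    · obtain ⟨y, hy, -, -⟩ := hgood p B hBP ∅ finite_empty (empty_subset _)
      refine hdisc y.col y (B ∩ L y.col) (hmem y (hB hy)) ?_ (hInv.col p B hBP y hy)
      rintro z ⟨hz, hzL⟩
      have h1 := hmem z (hB hz)
      have h2 : z.col = y.col := hzL
      rwa [h2] at h1

end Pool.Agent.H94R3.Whyburn
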